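import Pool.Agent.helper22.DL.SpecE2
import Pool.Agent.helper89.DL.WI

/-! # Project dl, stage 2, module ELN -/

namespace Pool.Agent.DL

open Matrix Complex MeasureTheory Set Filter Topology
open scoped ComplexOrder Manifold ContDiff ComplexConjugate

noncomputable section

/-- The `W`-part of the identity. -/
theorem ELN_algW (Lp h : ℂ) (hh : h ≠ 0) (c c' b b' x x' y y' : ℂ) :
    4 * Lp * (h * (Lp * (x * x') + (x' * (-3 * b * c) + x * (-3 * b' * c'))) +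
        h ^ 2 * (2 * Lp * (y * y') + (y' * (2 * x * c) + y * (2 * x' * c'))) + h⁻¹ * Lp) +
      4 * (h * ((h * (x * x') + h ^ 2 * (y * y') - h⁻¹) * (c * c')) +
        ((3 * c - 3 * h * (Lp * b' * x + c' * x + b' * (-3 * b * c)) +
            h ^ 2 * (2 * Lp * y * x' + 2 * x * c * x' + y * (-3 * b' * c'))) -
          Lp * (3 * b - 3 * h * b' * x + h ^ 2 * y * x')) * c' +
        c * ((3 * c' - 3 * h * (Lp * b * x' + c * x' + b * (-3 * b' * c')) +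
            h ^ 2 * (2 * Lp * y' * x + 2 * x' * c' * x + y' * (-3 * b * c))) -
          Lp * (3 * b' - 3 * h * b * x' + h ^ 2 * y' * x))) =
    2 * (6 * ((h * x * c' - c) * (h * x' * c - c')) +
      2 * h * ((3 * b * c - h * y * c' - Lp * x) * (3 * b' * c' - h * y' * c - Lp * x')) +
      2 * h⁻¹ * ((Lp - 3 * h * b * c') * (Lp - 3 * h * b' * c)) +
      h ^ 2 * ((-2 * x * c - 2 * Lp * y) * (-2 * x' * c' - 2 * Lp * y')) + 4 * (c * c')) := by
  field_simp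
  ring

/-- The part without `W`. -/
theorem ELN_alg0 (Lp h c c' be be' l l' l0 l0' m m' n n' : ℂ) :
    4 * (l * l') + 4 * Lp * (h * (be' * n + be * n' + Lp * (be * be'))) +
      4 * (h * l0' * (l0 * (c * c') + m * c' + c * n') +
        h * (h * (be * be') * (c * c') + l0 * (n * c' + c * m') + (-l0 * n - l * be) * c' + m * m' + n * n' +
          c * (-l0' * n' - l' * be'))) =
    4 * ((l - be' * h * c) * (l' - be * h * c')) + 4 * h * ((m + c * l0) * (m' + c' * l0')) +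
      4 * h * ((n + Lp * be) * (n' + Lp * be')) := by
  ring

/-- Value of one of the two derivatives. -/
def ELN_E (ε : ℂ) (f : ℂ → ℂ) (z a : ℂ) : Prop := DifferentiableAt ℝ f z ∧ WIdd ε f z = a

theorem ELN_E.mul {ε : ℂ} {f g : ℂ → ℂ} {z a b : ℂ} (hf : ELN_E ε f z a) (hg : ELN_E ε g z b) :
    ELN_E ε (fun w => f w * g w) z (a * g z + f z * b) :=
  ⟨hf.1.mul hg.1, by rw [WIdd_mul hf.1 hg.1, hf.2, hg.2]⟩

theorem ELN_E.add {ε : ℂ} {f g : ℂ → ℂ} {z a b : ℂ} (hf : ELN_E ε f z a) (hg : ELN_E ε g z b) :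
    ELN_E ε (fun w => f w + g w) z (a + b) :=
  ⟨hf.1.add hg.1, by rw [WIdd_add hf.1 hg.1, hf.2, hg.2]⟩

theorem ELN_E.cmul {ε : ℂ} {f : ℂ → ℂ} {z a : ℂ} (k : ℂ) (hf : ELN_E ε f z a) :
    ELN_E ε (fun w => k * f w) z (k * a) := by
  have h : ELN_E ε (fun _ => k) z 0 := ⟨differentiableAt_const _, WIdd_const _ _ _⟩
  have h2 := h.mul hf
  rwa [zero_mul, zero_add] at h2

theorem ELN_E.conj1 {f : ℂ → ℂ} {z a : ℂ} (hf : ELN_E (-1) f z a) :
    ELN_E 1 (fun w => conj (f w)) z (conj a) := by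
  refine ⟨(conjCLE : ℂ →L[ℝ] ℂ).differentiableAt.comp z hf.1, ?_⟩
  have h := WIdd_conj 1 hf.1
  simp only [ofReal_one, ofReal_neg] at h
  rw [hf.2] at h
  exact h

theorem ELN_E.conj2 {f : ℂ → ℂ} {z a : ℂ} (hf : ELN_E 1 f z a) :
    ELN_E (-1) (fun w => conj (f w)) z (conj a) := by
  refine ⟨(conjCLE : ℂ →L[ℝ] ℂ).differentiableAt.comp z hf.1, ?_⟩
  have h := WIdd_conj (-1) hf.1
  simp only [ofReal_one, ofReal_neg, neg_neg] at h
  rw [hf.2] at h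
  exact h

theorem ELN_E.rexp {ε : ℂ} {L : ℂ → ℝ} {z a : ℂ} (hL : DifferentiableAt ℝ L z)
    (h : ELN_E ε (fun w => (L w : ℂ)) z a) :
    ELN_E ε (fun w => (Real.exp (L w) : ℂ)) z ((Real.exp (L z) : ℂ) * a) := by
  have h1 : HasFDerivAt (fun w => Real.exp (L w)) (Real.exp (L z) • fderiv ℝ L z) z := hL.hasFDerivAt.exp
  have h2 : HasFDerivAt (fun w => (Real.exp (L w) : ℂ)) (ofRealCLM.comp (Real.exp (L z) • fderiv ℝ L z)) z :=
    ofRealCLM.hasFDerivAt.comp z h1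
  have h3 : HasFDerivAt (fun w => (L w : ℂ)) (ofRealCLM.comp (fderiv ℝ L z)) z :=
    ofRealCLM.hasFDerivAt.comp z hL.hasFDerivAt
  refine ⟨h2.differentiableAt, ?_⟩
  rw [← h.2]
  unfold WIdd
  rw [h2.fderiv, h3.fderiv]
  simp
  ring

/-- The two derivatives commute. -/
theorem ELN_comm {f : ℂ → ℂ} {z : ℂ} (hf : ContDiffAt ℝ 2 f z) :
    DifferentiableAt ℝ (fun w => WIdd (-1) f w) z ∧ DifferentiableAt ℝ (fun w => WIdd 1 f w) z ∧
    WIdd 1 (fun w => WIdd (-1) f w) z = WIdd (-1) (fun w => WIdd 1 f w) z := by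
  have h2 : HasFDerivAt (fderiv ℝ f) (fderiv ℝ (fderiv ℝ f) z) z := by
    have h3 : ContDiffAt ℝ 1 (fderiv ℝ f) z := hf.fderiv_right (by norm_num)
    exact (h3.differentiableAt (by norm_num)).hasFDerivAt
  set S := fderiv ℝ (fderiv ℝ f) z with hS
  have hsym : S 1 I = S I 1 := by
    have := hf.isSymmSndFDerivAt (by simp)
    exact this 1 I
  have hd : ∀ e : ℂ, HasFDerivAt (fun w => fderiv ℝ f w e) (S.flip e) z := by
    intro e
    have h7 := h2.clm_apply (hasFDerivAt_const e z)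
    rw [ContinuousLinearMap.comp_zero, zero_add] at h7
    exact h7
  have hG : ∀ ε : ℂ, HasFDerivAt (fun w => WIdd ε f w) ((1 / 2 : ℂ) • (S.flip 1 + ε • (I • S.flip I))) z := by
    intro ε
    have h4 := ((hd 1).add (((hd I).const_mul I).const_mul ε)).const_mul (1 / 2 : ℂ)
    refine h4.congr_of_eventuallyEq (Filter.Eventually.of_forall fun w => ?_)
    simp only [WIdd, Pi.add_apply]
    ring
  refine ⟨(hG _).differentiableAt, (hG _).differentiableAt, ?_⟩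
  have e1 : ∀ ε ε' : ℂ, WIdd ε (fun w => WIdd ε' f w) z =
      ((1 / 2 : ℂ) * (S 1 1 + ε' * (I * S 1 I)) + ε * (I * ((1 / 2 : ℂ) * (S I 1 + ε' * (I * S I I))))) / 2 := by
    intro ε ε'
    rw [WIdd, (hG ε').fderiv]
    rfl
  rw [e1, e1, hsym]
  ring

theorem ELN_exp2 (L : ℝ) : (Real.exp (2 * L) : ℂ) = (Real.exp L : ℂ) ^ 2 := by
  rw [two_mul, Real.exp_add]
  push_cast
  ring

theorem ELN_expn (L : ℝ) : (Real.exp (-L) : ℂ) = (Real.exp L : ℂ)⁻¹ := by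
  rw [Real.exp_neg]
  push_cast
  rfl

theorem ELN_nsq (z : ℂ) : ((‖z‖ ^ 2 : ℝ) : ℂ) = z * conj z := by
  rw [Complex.mul_conj, Complex.normSq_eq_norm_sq]

theorem ELN_nsq' (z : ℂ) : ((‖z‖ : ℝ) : ℂ) ^ 2 = z * conj z := by
  rw [← ELN_nsq]
  push_cast
  rfl

theorem ELN_re2 (z : ℂ) : ((2 * z.re : ℝ) : ℂ) = z + conj z := (Complex.add_conj z).symm

theorem ELN_RR (p r : ℂ) (L : ℝ) (b : ℂ) : ((RR p r L b : ℝ) : ℂ) =
    (Real.exp L : ℂ) * (xx p b * conj (xx p b)) + (Real.exp L : ℂ) ^ 2 * (yy p r b * conj (yy p r b)) -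
      (Real.exp L : ℂ)⁻¹ := by
  unfold RR
  rw [← ELN_exp2, ← ELN_expn, ← ELN_nsq, ← ELN_nsq]
  push_cast
  ring

theorem ELN_RR' (p r : ℂ) (L : ℝ) (b : ℂ) (L' : ℝ) (c : ℂ) : ((RR' p r L b L' c : ℝ) : ℂ) =
    (Real.exp L : ℂ) * ((L' : ℂ) * (xx p b * conj (xx p b)) +
        (conj (xx p b) * (-3 * b * c) + xx p b * (-3 * conj b * conj c))) +
      (Real.exp L : ℂ) ^ 2 * (2 * (L' : ℂ) * (yy p r b * conj (yy p r b)) +
        (conj (yy p r b) * (2 * xx p b * c) + yy p r b * (2 * conj (xx p b) * conj c))) +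
      (Real.exp L : ℂ)⁻¹ * (L' : ℂ) := by
  have h1 : (2 * p * c - 3 * b ^ 2 * c) = 2 * xx p b * c := by
    unfold xx
    ring
  unfold RR'
  rw [← ELN_exp2, ← ELN_expn, ← ELN_nsq, ← ELN_nsq, h1]
  have h2 := ELN_re2 (conj (xx p b) * (-3 * b * c))
  have h3 := ELN_re2 (conj (yy p r b) * (2 * xx p b * c))
  simp only [map_mul, map_neg, Complex.conj_conj, map_ofNat] at h2 h3
  push_cast at h2 h3 ⊢
  rw [h2, h3]

theorem ELN_QQ' (p r : ℂ) (L : ℝ) (b : ℂ) (L' : ℝ) (c : ℂ) : QQ' p r L b L' c =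
    3 * c - 3 * (Real.exp L : ℂ) * ((L' : ℂ) * conj b * xx p b + conj c * xx p b + conj b * (-3 * b * c)) +
      (Real.exp L : ℂ) ^ 2 * (2 * (L' : ℂ) * yy p r b * conj (xx p b) + 2 * xx p b * c * conj (xx p b) +
        yy p r b * (-3 * conj b * conj c)) := by
  have h1 : (2 * p * c - 3 * b ^ 2 * c) = 2 * xx p b * c := by
    unfold xx
    ring
  unfold QQ'
  rw [← ELN_exp2, h1]
  simp only [map_mul, map_neg, map_ofNat]

theorem ELN (hLW : LW_stmt) : ELN_stmt := by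
  intro Ω W p r L b L' b' hΩ hS hL z hz hW
  have cL : ∀ w ∈ Ω, ContDiffAt ℝ 2 L w := fun w hw => hS.sL.contDiffAt (hΩ.mem_nhds hw)
  have cb : ∀ w ∈ Ω, ContDiffAt ℝ 2 b w := fun w hw => hS.sb.contDiffAt (hΩ.mem_nhds hw)
  have cL' : ∀ w ∈ Ω, ContDiffAt ℝ 2 L' w := fun w hw => hL.sL.contDiffAt (hΩ.mem_nhds hw)
  have cb' : ∀ w ∈ Ω, ContDiffAt ℝ 2 b' w := fun w hw => hL.sb.contDiffAt (hΩ.mem_nhds hw)
  have cof : ∀ (f : ℂ → ℝ) (w : ℂ), ContDiffAt ℝ 2 f w → ContDiffAt ℝ 2 (fun v => (f v : ℂ)) w :=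
    fun f w hf => ofRealCLM.contDiff.contDiffAt.comp w hf
  have two : (2 : WithTop ℕ∞) ≠ 0 := two_ne_zero
  have cu : ContDiffAt ℝ 2 (fun w => 2 * L' w ^ 2 + 4 * Real.exp (L w) * ‖b' w‖ ^ 2) z :=
    (contDiffAt_const.mul ((cL' z hz).pow 2)).add
      ((contDiffAt_const.mul (cL z hz).exp).mul ((cb' z hz).norm_sq ℝ))
  refine ⟨cu, ?_⟩
  -- complex form of the function
  have hu : (fun v => (((2 * L' v ^ 2 + 4 * Real.exp (L v) * ‖b' v‖ ^ 2 : ℝ)) : ℂ)) =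
      fun v => 2 * ((L' v : ℂ) * (L' v : ℂ)) + 4 * ((Real.exp (L v) : ℂ) * (b' v * conj (b' v))) := by
    funext v
    rw [← ELN_nsq]
    push_cast
    ring
  -- first derivative
  have h1 : ∀ w ∈ Ω, dz (fun v => (((2 * L' v ^ 2 + 4 * Real.exp (L v) * ‖b' v‖ ^ 2 : ℝ)) : ℂ)) w =
      4 * ((L' w : ℂ) * WIdd (-1) (fun v => (L' v : ℂ)) w) +
      4 * ((Real.exp (L w) : ℂ) * WIdd (-1) (fun v => (L v : ℂ)) w * (b' w * conj (b' w)) +
        (Real.exp (L w) : ℂ) * (WIdd (-1) b' w * conj (b' w) + b' w * conj (WIdd 1 b' w))) := by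
    intro w hw
    have e1 : ELN_E (-1) (fun v => (L' v : ℂ)) w (WIdd (-1) (fun v => (L' v : ℂ)) w) :=
      ⟨(cof L' w (cL' w hw)).differentiableAt two, rfl⟩
    have e2 : ELN_E (-1) (fun v => (L v : ℂ)) w (WIdd (-1) (fun v => (L v : ℂ)) w) :=
      ⟨(cof L w (cL w hw)).differentiableAt two, rfl⟩
    have e3 : ELN_E (-1) b' w (WIdd (-1) b' w) := ⟨(cb' w hw).differentiableAt two, rfl⟩
    have e4 : ELN_E 1 b' w (WIdd 1 b' w) := ⟨(cb' w hw).differentiableAt two, rfl⟩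
    have e5 := ((e1.mul e1).cmul 2).add (((e2.rexp ((cL w hw).differentiableAt two)).mul (e3.mul e4.conj2)).cmul 4)
    rw [hu, WI_dz, e5.2]
    ring
  -- the values
  obtain ⟨d1, -, -⟩ := ELN_comm (cof L' z (cL' z hz))
  obtain ⟨d2, -, -⟩ := ELN_comm (cof L z (cL z hz))
  obtain ⟨d3, d4, hcomm⟩ := ELN_comm (cb' z hz)
  obtain ⟨-, d5, -⟩ := ELN_comm (cb z hz)
  obtain ⟨l, hl⟩ : ∃ l, WIdd (-1) (fun v => (L' v : ℂ)) z = l := ⟨_, rfl⟩
  obtain ⟨l0, hl0⟩ : ∃ l, WIdd (-1) (fun v => (L v : ℂ)) z = l := ⟨_, rfl⟩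
  obtain ⟨m, hm⟩ : ∃ l, WIdd (-1) b' z = l := ⟨_, rfl⟩
  obtain ⟨n, hn⟩ : ∃ l, WIdd 1 b' z = l := ⟨_, rfl⟩
  obtain ⟨be, hbe⟩ : ∃ l, WIdd 1 b z = l := ⟨_, rfl⟩
  obtain ⟨S, hSS⟩ : ∃ l, WIdd (-1) (fun w => WIdd 1 b' w) z = l := ⟨_, rfl⟩
  obtain ⟨T, hT⟩ : ∃ l, WIdd (-1) (fun w => WIdd 1 b w) z = l := ⟨_, rfl⟩
  have f1 : ELN_E (-1) (fun v => (L' v : ℂ)) z l := ⟨(cof L' z (cL' z hz)).differentiableAt two, hl⟩
  have f2 : ELN_E (-1) (fun v => (L v : ℂ)) z l0 := ⟨(cof L z (cL z hz)).differentiableAt two, hl0⟩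
  have f1' : ELN_E 1 (fun v => (L' v : ℂ)) z (conj l) := by
    have h := f1.conj1
    simpa only [Complex.conj_ofReal] using h
  have f2' : ELN_E 1 (fun v => (L v : ℂ)) z (conj l0) := by
    have h := f2.conj1
    simpa only [Complex.conj_ofReal] using h
  have f3 : ELN_E (-1) b' z m := ⟨(cb' z hz).differentiableAt two, hm⟩
  have f4 : ELN_E 1 b' z n := ⟨(cb' z hz).differentiableAt two, hn⟩
  have f5 : ELN_E (-1) (fun w => WIdd 1 b' w) z S := ⟨d4, hSS⟩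
  have f6 : ELN_E 1 (fun w => WIdd (-1) b' w) z S := ⟨d3, by rw [hcomm, hSS]⟩
  have f7 : ELN_E (-1) (fun w => WIdd 1 b w) z T := ⟨d5, hT⟩
  have LLe : ELN_E 1 (fun w => WIdd (-1) (fun v => (L v : ℂ)) w) z ((lap L z : ℝ) : ℂ) := by
    refine ⟨d2, ?_⟩
    rw [hLW L z (cL z hz), WI_dzb]
    simp only [WI_dz]
  have LLe' : ELN_E 1 (fun w => WIdd (-1) (fun v => (L' v : ℂ)) w) z ((lap L' z : ℝ) : ℂ) := by
    refine ⟨d1, ?_⟩
    rw [hLW L' z (cL' z hz), WI_dzb]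
    simp only [WI_dz]
  -- the second derivative
  have h2 := hLW _ z cu
  have h3 : (fun w => dz (fun v => (((2 * L' v ^ 2 + 4 * Real.exp (L v) * ‖b' v‖ ^ 2 : ℝ)) : ℂ)) w) =ᶠ[𝓝 z]
      fun w => 4 * ((L' w : ℂ) * WIdd (-1) (fun v => (L' v : ℂ)) w) +
      4 * ((Real.exp (L w) : ℂ) * WIdd (-1) (fun v => (L v : ℂ)) w * (b' w * conj (b' w)) +
        (Real.exp (L w) : ℂ) * (WIdd (-1) b' w * conj (b' w) + b' w * conj (WIdd 1 b' w))) := by
    filter_upwards [hΩ.mem_nhds hz] with w hw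
    exact h1 w hw
  have hex := f2'.rexp ((cL z hz).differentiableAt two)
  have h4 := ((f1'.mul LLe').cmul 4).add ((((hex.mul LLe).mul (f4.mul f3.conj1)).add
    (hex.mul ((f6.mul f3.conj1).add (f4.mul f5.conj1)))).cmul 4)
  rw [WI_dzb, WIdd_congr h3, h4.2] at h2
  -- the equations
  have g1 : ((lap L z : ℝ) : ℂ) = (Real.exp (L z) : ℂ) * (be * conj be) + (W z : ℂ) * ((RR (p z) (r z) (L z) (b z) : ℝ) : ℂ) := by
    have h := hS.e1 z hz
    rw [WI_dzb, hbe, add_zero] at h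
    rw [h, ← ELN_nsq]
    push_cast
    ring
  have g2 : ((lap L' z : ℝ) : ℂ) = (Real.exp (L z) : ℂ) * (conj be * n + be * conj n + (L' z : ℂ) * (be * conj be)) +
      (W z : ℂ) * ((RR' (p z) (r z) (L z) (b z) (L' z) (b' z) : ℝ) : ℂ) := by
    have h := hL.e1 z hz
    rw [WI_dzb, WI_dzb, hbe, hn] at h
    have h5 := ELN_re2 (conj be * n)
    simp only [map_mul, Complex.conj_conj] at h5
    rw [h, ← ELN_nsq]
    push_cast at h5 ⊢
    rw [h5]
  have g3 : (Real.exp (L z) : ℂ) * l0 * be + (Real.exp (L z) : ℂ) * T = (W z : ℂ) * QQ (p z) (r z) (L z) (b z) := by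
    have h := hS.e2 z hz
    rw [WI_dz] at h
    simp only [WI_dzb] at h
    rw [((f2.rexp ((cL z hz).differentiableAt two)).mul f7).2, hbe] at h
    exact h
  have g4 : (Real.exp (L z) : ℂ) * l0 * (n + (L' z : ℂ) * be) + (Real.exp (L z) : ℂ) * (S + (l * be + (L' z : ℂ) * T)) =
      (W z : ℂ) * QQ' (p z) (r z) (L z) (b z) (L' z) (b' z) := by
    have h := hL.e2 z hz
    rw [WI_dz] at h
    simp only [WI_dzb] at h
    rw [((f2.rexp ((cL z hz).differentiableAt two)).mul (f5.add (f1.mul f7))).2, hbe, hn] at h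
    exact h
  -- algebra
  have hh : (Real.exp (L z) : ℂ) ≠ 0 := by exact_mod_cast (Real.exp_pos (L z)).ne'
  simp only [hm, hn, hl, hl0] at h2
  rw [ELN_QQ'] at g4
  have g3' : QQ (p z) (r z) (L z) (b z) = 3 * b z - 3 * (Real.exp (L z) : ℂ) * conj (b z) * xx (p z) (b z) +
      (Real.exp (L z) : ℂ) ^ 2 * yy (p z) (r z) (b z) * conj (xx (p z) (b z)) := by
    unfold QQ
    rw [ELN_exp2]
  rw [g3'] at g3
  rw [g1, g2, ELN_RR, ELN_RR'] at h2
  have k3 := congrArg conj g3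
  have k4 := congrArg conj g4
  simp only [map_add, map_mul, map_sub, map_neg, map_pow, map_ofNat, Complex.conj_ofReal, Complex.conj_conj] at k3 k4
  set h : ℂ := (Real.exp (L z) : ℂ) with hdef
  set x : ℂ := xx (p z) (b z)
  set y : ℂ := yy (p z) (r z) (b z)
  have hT1 : T = (W z : ℂ) * (3 * b z - 3 * h * conj (b z) * x + h ^ 2 * y * conj x) * h⁻¹ - l0 * be := by
    field_simp
    linear_combination g3
  have hT2 : conj T = (W z : ℂ) * (3 * conj (b z) - 3 * h * b z * conj x + h ^ 2 * conj y * x) * h⁻¹ - conj l0 * conj be := by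
    field_simp
    linear_combination k3
  have hS1 : S = (W z : ℂ) * (3 * b' z - 3 * h * ((L' z : ℂ) * conj (b z) * x + conj (b' z) * x + conj (b z) * (-3 * b z * b' z)) +
      h ^ 2 * (2 * (L' z : ℂ) * y * conj x + 2 * x * b' z * conj x + y * (-3 * conj (b z) * conj (b' z)))) * h⁻¹ -
      l0 * (n + (L' z : ℂ) * be) - l * be - (L' z : ℂ) * T := by
    field_simp
    linear_combination g4
  have hS2 : conj S = (W z : ℂ) * (3 * conj (b' z) - 3 * h * ((L' z : ℂ) * b z * conj x + b' z * conj x + b z * (-3 * conj (b z) * conj (b' z))) +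
      h ^ 2 * (2 * (L' z : ℂ) * conj y * x + 2 * conj x * conj (b' z) * x + conj y * (-3 * b z * b' z))) * h⁻¹ -
      conj l0 * (conj n + (L' z : ℂ) * conj be) - conj l * conj be - (L' z : ℂ) * conj T := by
    field_simp
    linear_combination k4
  have A0 := ELN_alg0 (L' z : ℂ) h (b' z) (conj (b' z)) be (conj be) l (conj l) l0 (conj l0) m (conj m) n (conj n)
  have AW := ELN_algW (L' z : ℂ) h hh (b' z) (conj (b' z)) (b z) (conj (b z)) x (conj x) y (conj y)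
  rw [hS2, hS1, hT2, hT1] at h2
  have hfin : ((lap (fun w => 2 * L' w ^ 2 + 4 * Real.exp (L w) * ‖b' w‖ ^ 2) z : ℝ) : ℂ) =
      4 * ((l - conj be * h * b' z) * (conj l - be * h * conj (b' z))) +
      4 * h * ((m + b' z * l0) * (conj m + conj (b' z) * conj l0)) +
      4 * h * ((n + (L' z : ℂ) * be) * (conj n + (L' z : ℂ) * conj be)) +
      (W z : ℂ) * (2 * (6 * ((h * x * conj (b' z) - b' z) * (h * conj x * b' z - conj (b' z))) +
      2 * h * ((3 * b z * b' z - h * y * conj (b' z) - (L' z : ℂ) * x) *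
        (3 * conj (b z) * conj (b' z) - h * conj y * b' z - (L' z : ℂ) * conj x)) +
      2 * h⁻¹ * (((L' z : ℂ) - 3 * h * b z * conj (b' z)) * ((L' z : ℂ) - 3 * h * conj (b z) * b' z)) +
      h ^ 2 * ((-2 * x * b' z - 2 * (L' z : ℂ) * y) * (-2 * conj x * conj (b' z) - 2 * (L' z : ℂ) * conj y)) +
      4 * (b' z * conj (b' z)))) := by
    rw [← A0, ← AW, h2]
    field_simp
    ring
  -- real form
  have hreal : lap (fun w => 2 * L' w ^ 2 + 4 * Real.exp (L w) * ‖b' w‖ ^ 2) z =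
      4 * ‖l - conj be * h * b' z‖ ^ 2 + 4 * Real.exp (L z) * ‖m + b' z * l0‖ ^ 2 +
      4 * Real.exp (L z) * ‖n + (L' z : ℂ) * be‖ ^ 2 +
      W z * (2 * (6 * ‖h * x * conj (b' z) - b' z‖ ^ 2 +
      2 * Real.exp (L z) * ‖3 * b z * b' z - h * y * conj (b' z) - (L' z : ℂ) * x‖ ^ 2 +
      2 * Real.exp (-L z) * ‖(L' z : ℂ) - 3 * h * b z * conj (b' z)‖ ^ 2 +
      Real.exp (L z) ^ 2 * ‖-2 * x * b' z - 2 * (L' z : ℂ) * y‖ ^ 2 + 4 * ‖b' z‖ ^ 2)) := by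
    apply Complex.ofReal_injective
    rw [hfin]
    simp only [ofReal_add, ofReal_mul, ofReal_pow, ELN_nsq', ELN_expn, ofReal_ofNat, map_add, map_sub, map_mul, map_neg, map_ofNat,
      Complex.conj_conj, Complex.conj_ofReal, hdef]
  rw [hreal]
  have q1 : 0 ≤ ‖l - conj be * h * b' z‖ ^ 2 := by positivity
  have q2 : 0 ≤ Real.exp (L z) * ‖m + b' z * l0‖ ^ 2 := by positivity
  have q3 : 0 ≤ Real.exp (L z) * ‖n + (L' z : ℂ) * be‖ ^ 2 := by positivity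
  have q4 : 0 ≤ W z * ‖h * x * conj (b' z) - b' z‖ ^ 2 := by positivity
  have q5 : 0 ≤ W z * (Real.exp (L z) * ‖3 * b z * b' z - h * y * conj (b' z) - (L' z : ℂ) * x‖ ^ 2) := by positivity
  have q6 : 0 ≤ W z * (Real.exp (-L z) * ‖(L' z : ℂ) - 3 * h * b z * conj (b' z)‖ ^ 2) := by positivity
  have q7 : 0 ≤ W z * (Real.exp (L z) ^ 2 * ‖-2 * x * b' z - 2 * (L' z : ℂ) * y‖ ^ 2) := by positivity
  nlinarith [q1, q2, q3, q4, q5, q6, q7]

end

end Pool.Agent.DL
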