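import Pool.Agent.helper22.DL.SpecE3
import Pool.Agent.helper52.DL.X15
import Pool.Agent.helper31.DL.X16

/-! # Project dl, stage 2, modules ETA, ETB -/

namespace Pool.Agent.DL

open Matrix Complex MeasureTheory Set Filter Topology
open scoped ComplexOrder Manifold ContDiff ComplexConjugate

noncomputable section

theorem ETA_norm {d : ℂ} (hd : d ^ 8 = 1) : ‖d‖ = 1 := by
  have h : ‖d‖ ^ 8 = 1 := by rw [← norm_pow, hd, norm_one]
  exact (pow_eq_one_iff_of_nonneg (norm_nonneg d) (by norm_num)).1 h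

theorem ETA_gen [ChartedSpace ℂ XT] (hX2 : X02_stmt) {U : Set XT} (hU : IsOpen U) {g F : XT → ℂ}
    (hg : HoloOn g U) (hF : HoloOn F U) {η : Fam XT} {e : OpenPartialHomeomorph XT ℂ} (he : e ∈ atlas ℂ XT) {x : XT}
    (hx : x ∈ e.source) (hxU : x ∈ U) (d : ℂ) (hd : d ^ 8 = 1) (hFx : F x = d) (hgx : g x = 0) (ε : ℂ) (hε : ‖ε‖ = 1)
    (hrel : ∀ p ∈ U, d ^ 4 * F p ^ 4 * (1 + g p ^ 2) = 1 - g p ^ 2) (h1 : ∀ p ∈ U, 1 + g p ^ 2 ≠ 0)
    (hF0 : ∀ p ∈ U, F p ≠ 0)
    (hη : ∀ p ∈ U, p ∈ e.source → η e p = ε * (2 * F p ^ 3 * (1 + g p ^ 2))⁻¹ * dd g e p) :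
    ∃ (N : Set ℂ) (χ : ℂ → ℂ), IsOpen N ∧ e x ∈ N ∧ N ⊆ e.target ∩ e.symm ⁻¹' U ∧ DifferentiableOn ℂ χ N ∧
      ∀ z ∈ N, χ z ∈ Metric.ball (0 : ℂ) 1 ∧ F (e.symm z) = psi d (χ z) ∧
        ‖η e (e.symm z)‖ ^ 2 = Wr 1 (χ z) * ‖deriv χ z‖ ^ 2 := by
  have hS : IsOpen (e.target ∩ e.symm ⁻¹' U) := e.isOpen_inter_preimage_symm hU
  have hd0 : d ≠ 0 := by
    rintro rfl
    norm_num at hd
  have hdn := ETA_norm hd
  have hcont : ContinuousOn (fun z => (g (e.symm z), F (e.symm z) / d)) (e.target ∩ e.symm ⁻¹' U) :=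
    (hg e he).continuousOn.prodMk ((hF e he).continuousOn.div_const d)
  have ht : IsOpen {q : ℂ × ℂ | ‖q.1‖ < 1 ∧ |q.2.im| < q.2.re} := by
    apply IsOpen.and
    · exact isOpen_lt (by fun_prop) (by fun_prop)
    · exact isOpen_lt (by fun_prop) (by fun_prop)
  refine ⟨(e.target ∩ e.symm ⁻¹' U) ∩ (fun z => (g (e.symm z), F (e.symm z) / d)) ⁻¹'
    {q : ℂ × ℂ | ‖q.1‖ < 1 ∧ |q.2.im| < q.2.re}, fun z => g (e.symm z), hcont.isOpen_inter_preimage hS ht, ?_, ?_, ?_, ?_⟩
  · refine ⟨⟨e.map_source hx, ?_⟩, ?_⟩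
    · show e.symm (e x) ∈ U
      rw [e.left_inv hx]
      exact hxU
    · show ‖g (e.symm (e x))‖ < 1 ∧ |(F (e.symm (e x)) / d).im| < (F (e.symm (e x)) / d).re
      rw [e.left_inv hx, hgx, hFx, div_self hd0]
      simp
  · exact fun z hz => hz.1
  · exact (hg e he).mono fun z hz => hz.1
  · rintro z ⟨⟨hz1, hz2⟩, hz3, hz4⟩
    change e.symm z ∈ U at hz2
    change ‖g (e.symm z)‖ < 1 at hz3
    change |(F (e.symm z) / d).im| < (F (e.symm z) / d).re at hz4
    have hp : e.symm z ∈ e.source := e.map_target hz1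
    have hr := hrel _ hz2
    have h1' := h1 _ hz2
    have hF0' := hF0 _ hz2
    have hm : mm (g (e.symm z) ^ 2) = (F (e.symm z) / d) ^ 4 := by
      unfold mm
      rw [div_eq_iff h1', ← hr, div_pow]
      field_simp
      linear_combination hd
    have hr4 : r4 (mm (g (e.symm z) ^ 2)) = F (e.symm z) / d := by
      rw [hm]
      exact (hX2.2.2.2.1 _ hz4).2
    refine ⟨by rw [Metric.mem_ball, dist_zero_right]; exact hz3, ?_, ?_⟩
    · unfold psi
      rw [hr4, mul_div_cancel₀ _ hd0]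
    · have hdd : dd g e (e.symm z) = deriv (fun z => g (e.symm z)) z := by
        unfold dd
        rw [e.right_inv hz1]
      rw [hη _ hz2 hp, hdd]
      unfold Wr
      rw [hr4, ← hr]
      simp only [norm_mul, norm_inv, norm_div, norm_pow, hε, hdn]
      have e1 : ‖F (e.symm z)‖ ≠ 0 := norm_ne_zero_iff.2 hF0'
      have e2 : ‖1 + g (e.symm z) ^ 2‖ ≠ 0 := norm_ne_zero_iff.2 h1'
      have e3 : ‖(2 : ℂ)‖ = 2 := by simp
      rw [e3]
      field_simp
      ring

theorem ETA_mono [ChartedSpace ℂ XT] {f : XT → ℂ} {U V : Set XT} (h : HoloOn f V) (hUV : U ⊆ V) : HoloOn f U :=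
  fun e he => (h e he).mono fun z hz => ⟨hz.1, hUV hz.2⟩

theorem ETA (hX2 : X02_stmt) : ETA_stmt := by
  intro cs ch hG hH e he x hx hxe
  by_cases hV : x ∈ uV
  · by_cases hY : x ∈ uY
    · -- off the roots
      have hU : IsOpen (uZ ∩ uY ∩ uV) := (hH.oZ.inter hH.oY).inter hH.oV
      refine ⟨e.target ∩ e.symm ⁻¹' (uZ ∩ uY ∩ uV), fun z => fZ (e.symm z), e.isOpen_inter_preimage_symm hU,
        ⟨e.map_source hxe, ?_⟩, fun z hz => ⟨hz.1, hz.2.1.1⟩, (hH.hZ e he).mono fun z hz => ⟨hz.1, hz.2.1.1⟩, Or.inl ?_⟩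
      · show e.symm (e x) ∈ uZ ∩ uY ∩ uV
        rw [e.left_inv hxe]
        exact ⟨⟨hx, hY⟩, hV⟩
      · rintro z ⟨hz1, ⟨⟨hz2, hz3⟩, hz4⟩⟩
        have r1 := X15_rel hz2 hz3
        obtain ⟨r3, -⟩ := X15_YV hz2 hz3 hz4
        have hsq : ((1 + fZ (e.symm z) ^ 4) * fY (e.symm z)) ^ 2 = 1 - fZ (e.symm z) ^ 8 := by
          linear_combination (1 + fZ (e.symm z) ^ 4) * r1
        have hne : (1 + fZ (e.symm z) ^ 4) * fY (e.symm z) ≠ 0 := by
          refine mul_ne_zero ?_ r3
          intro h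
          rw [h, zero_mul] at r1
          exact two_ne_zero r1.symm
        refine ⟨?_, rfl, ?_⟩
        · show fZ (e.symm z) ^ 8 ≠ 1
          intro h
          rw [h, sub_self] at hsq
          exact hne (pow_eq_zero_iff (two_ne_zero) |>.1 hsq)
        · have he0 : eta0 e (e.symm z) = dd fZ e (e.symm z) / ((1 + fZ (e.symm z) ^ 4) * fY (e.symm z)) := by
            unfold eta0
            rw [if_neg hz3, if_neg hz4]
          have hdd : dd fZ e (e.symm z) = deriv (fun z => fZ (e.symm z)) z := by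
            unfold dd
            rw [e.right_inv hz1]
          rw [he0, hdd, Wt, ← hsq, norm_div, norm_pow, div_pow]
          ring
    · -- at infinity
      have hx2 : x.1.2 = OnePoint.infty := not_not.1 hY
      obtain ⟨z0, hp0, h40, hZ0, hV0⟩ := X15_inf hx hx2
      have hU : IsOpen (uZ ∩ uN ∩ uV) := (hH.oZ.inter hH.oN).inter hH.oV
      have hd0 : z0 ≠ 0 := by
        rintro rfl
        norm_num at h40
      have hxN : x ∈ uN := by
        show x.1.1 ≠ OnePoint.some 0
        rw [hp0]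
        intro h
        exact hd0 (OnePoint.coe_injective h)
      have hd4 : z0 ^ 4 = -1 := by linear_combination h40
      have hd : z0 ^ 8 = 1 := by linear_combination (z0 ^ 4 - 1) * h40
      have hvy : ∀ p ∈ uZ ∩ uN ∩ uV, -(fZ p ^ 4) * (1 + fV p ^ 2) = 1 - fV p ^ 2 := by
        rintro p ⟨⟨p1, p2⟩, p3⟩
        by_cases hp : p.1.2 = OnePoint.infty
        · obtain ⟨z1, -, h41, hZ1, hV1⟩ := X15_inf p1 hp
          rw [hZ1, hV1]
          linear_combination -h41
        · obtain ⟨k1, k2⟩ := X15_YV p1 hp p3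
          have k3 := X15_rel p1 hp
          rw [k2]
          field_simp
          linear_combination -k3
      obtain ⟨N, χ, n1, n2, n3, n4, n5⟩ := ETA_gen hX2 hU (ETA_mono hH.hV fun p hp => hp.2)
        (ETA_mono hH.hZ fun p hp => hp.1.1) (η := eta0) he hxe ⟨⟨hx, hxN⟩, hV⟩ z0 hd hZ0 hV0 1 (by simp)
        (fun p hp => by rw [hd4, ← hvy p hp]; ring) (fun p hp => X15_V hp.1.1 hp.2) (fun p hp => X15_Z hp.1.1 hp.1.2)
        (by
          rintro p ⟨⟨p1, p2⟩, p3⟩ hpe
          by_cases hp : p.1.2 = OnePoint.infty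
          · unfold eta0
            rw [if_pos hp, div_eq_mul_inv]
            ring
          · have he0 : eta0 e p = X15_a p * dd fZ e p := by
              unfold eta0 X15_a
              rw [if_neg hp, if_neg p3, div_eq_mul_inv]
              ring
            rw [he0, X15_AB hH he hpe p1 p2 hp p3, X15_BC hH he hpe p1 p2 hp p3]
            unfold X15_c
            ring)
      exact ⟨N, χ, n1, n2, fun z hz => ⟨(n3 hz).1, (n3 hz).2.1.1⟩, n4, Or.inr ⟨z0, hd, n5⟩⟩
  · -- `Y = 0`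
    have hx2 : x.1.2 = OnePoint.some 0 := not_not.1 hV
    have hY : x ∈ uY := by
      show x.1.2 ≠ OnePoint.infty
      rw [hx2]
      exact OnePoint.coe_ne_infty 0
    obtain ⟨z0, y0, hp0, h0, hZ0, hY0, -⟩ := X15_fin hx hY
    have hy0 : y0 = 0 := by
      rw [hp0] at hx2
      exact OnePoint.coe_injective hx2
    subst hy0
    have hd4 : z0 ^ 4 = 1 := by linear_combination h0
    have hd : z0 ^ 8 = 1 := by linear_combination (z0 ^ 4 + 1) * hd4
    have hd0 : z0 ≠ 0 := by
      rintro rfl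
      norm_num at hd4
    have hxN : x ∈ uN := by
      show x.1.1 ≠ OnePoint.some 0
      rw [hp0]
      intro h
      exact hd0 (OnePoint.coe_injective h)
    have hU : IsOpen (uZ ∩ uN ∩ uY) := (hH.oZ.inter hH.oN).inter hH.oY
    obtain ⟨N, χ, n1, n2, n3, n4, n5⟩ := ETA_gen hX2 hU (ETA_mono hH.hY fun p hp => hp.2)
      (ETA_mono hH.hZ fun p hp => hp.1.1) (η := eta0) he hxe ⟨⟨hx, hxN⟩, hY⟩ z0 hd hZ0 hY0 (-1) (by simp)
      (fun p hp => by rw [hd4]; linear_combination X15_rel hp.1.1 hp.2) (fun p hp => X16_y2 p hp.1.1 hp.2)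
      (fun p hp => X15_Z hp.1.1 hp.1.2)
      (by
        rintro p ⟨⟨p1, p2⟩, p3⟩ hpe
        by_cases hp : p.1.2 = OnePoint.some 0
        · unfold eta0
          rw [if_neg p3, if_pos hp, div_eq_mul_inv]
          ring
        · have he0 : eta0 e p = X15_a p * dd fZ e p := by
            unfold eta0 X15_a
            rw [if_neg p3, if_neg hp, div_eq_mul_inv]
            ring
          rw [he0, X15_AB hH he hpe p1 p2 p3 hp]
          unfold X15_b
          ring)
    exact ⟨N, χ, n1, n2, fun z hz => ⟨(n3 hz).1, (n3 hz).2.1.1⟩, n4, Or.inr ⟨z0, hd, n5⟩⟩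

theorem ETB_N {p : XT} (h1 : p ∈ uZ) (h2 : p ∈ uN) : fN p ≠ 0 := by
  rcases X16_cases p with ⟨z, y, hz, hy, hN, -⟩ | ⟨y, hz, -⟩ | ⟨z, hz, hy, hN, -⟩
  · rw [hN]
    apply inv_ne_zero
    rintro rfl
    exact h2 hz
  · exact absurd hz h1
  · rw [hN]
    apply inv_ne_zero
    rintro rfl
    exact h2 hz

theorem ETB (hX2 : X02_stmt) : ETB_stmt := by
  intro cs ch hG hH e he x hx hxe
  have hIY : HoloOn (fun p => I * fY p) uY := fun e he => (hH.hY e he).const_mul I
  have hIV : HoloOn (fun p => I * fV p) uV := fun e he => (hH.hV e he).const_mul I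
  have hddY : ∀ p, dd (fun p => I * fY p) e p = I * dd fY e p := fun p => by
    unfold dd
    exact deriv_const_mul_field I
  have hddV : ∀ p, dd (fun p => I * fV p) e p = I * dd fV e p := fun p => by
    unfold dd
    exact deriv_const_mul_field I
  by_cases hV : x ∈ uV
  · by_cases hY : x ∈ uY
    · -- off the roots
      have hU : IsOpen (uN ∩ uY ∩ uV) := (hH.oN.inter hH.oY).inter hH.oV
      refine ⟨e.target ∩ e.symm ⁻¹' (uN ∩ uY ∩ uV), fun z => fN (e.symm z), e.isOpen_inter_preimage_symm hU,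
        ⟨e.map_source hxe, ?_⟩, fun z hz => ⟨hz.1, hz.2.1.1⟩, (hH.hN e he).mono fun z hz => ⟨hz.1, hz.2.1.1⟩, Or.inl ?_⟩
      · show e.symm (e x) ∈ uN ∩ uY ∩ uV
        rw [e.left_inv hxe]
        exact ⟨⟨hx, hY⟩, hV⟩
      · rintro z ⟨hz1, ⟨⟨hz2, hz3⟩, hz4⟩⟩
        have r1 := X16_rel _ hz2 hz3
        have r3 := (X16_vy _ hz4 hz3).2
        have hsq : ((1 + fN (e.symm z) ^ 4) * fY (e.symm z)) ^ 2 = -(1 - fN (e.symm z) ^ 8) := by
          linear_combination (1 + fN (e.symm z) ^ 4) * r1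
        have hne : (1 + fN (e.symm z) ^ 4) * fY (e.symm z) ≠ 0 := mul_ne_zero (X16_n4 _ hz2 hz3) r3
        refine ⟨?_, rfl, ?_⟩
        · show fN (e.symm z) ^ 8 ≠ 1
          intro h
          rw [h, sub_self, neg_zero] at hsq
          exact hne (pow_eq_zero_iff (two_ne_zero) |>.1 hsq)
        · have he0 : eta1 e (e.symm z) = -dd fN e (e.symm z) / ((1 + fN (e.symm z) ^ 4) * fY (e.symm z)) := by
            unfold eta1
            rw [if_neg hz3, if_neg hz4]
          have hdd : dd fN e (e.symm z) = deriv (fun z => fN (e.symm z)) z := by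
            unfold dd
            rw [e.right_inv hz1]
          have hn : ‖1 - fN (e.symm z) ^ 8‖ = ‖(1 + fN (e.symm z) ^ 4) * fY (e.symm z)‖ ^ 2 := by
            rw [← norm_pow, hsq, norm_neg]
          rw [he0, hdd, Wt, hn, norm_div, norm_neg, div_pow]
          ring
    · -- at infinity
      have hx2 : x.1.2 = OnePoint.infty := not_not.1 hY
      obtain ⟨z0, hz0, hN0, hV0, h40⟩ : ∃ z : ℂ, x.1.1 = OnePoint.some z ∧ fN x = z⁻¹ ∧ fV x = 0 ∧ 1 + z ^ 4 = 0 := by
        rcases X16_cases x with ⟨z, y, hz, hy, -⟩ | ⟨y, hz, hy, -⟩ | ⟨z, hz, hy, hN, hY', hV', h⟩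
        · rw [hy] at hx2
          exact absurd hx2 (OnePoint.coe_ne_infty y)
        · rw [hy] at hx2
          exact absurd hx2 (OnePoint.coe_ne_infty y)
        · exact ⟨z, hz, hN, hV', h⟩
      have hxZ : x ∈ uZ := by
        show x.1.1 ≠ OnePoint.infty
        rw [hz0]
        exact OnePoint.coe_ne_infty z0
      have hz00 : z0 ≠ 0 := by
        rintro rfl
        norm_num at h40
      have hU : IsOpen (uZ ∩ uN ∩ uV) := (hH.oZ.inter hH.oN).inter hH.oV
      have hz4 : z0 ^ 4 = -1 := by linear_combination h40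
      have hd4 : z0⁻¹ ^ 4 = -1 := by rw [inv_pow, hz4]; norm_num
      have hd : z0⁻¹ ^ 8 = 1 := by
        have : z0⁻¹ ^ 8 = (z0⁻¹ ^ 4) ^ 2 := by ring
        rw [this, hd4]
        norm_num
      have hvy : ∀ p ∈ uZ ∩ uN ∩ uV, -(fN p ^ 4) * (1 - fV p ^ 2) = 1 + fV p ^ 2 := by
        rintro p ⟨⟨p1, p2⟩, p3⟩
        rcases X16_cases p with ⟨z, y, hz, hy, hN, hY', hV', h⟩ | ⟨y, hz, hy, -⟩ | ⟨z, hz, hy, hN, hY', hV', h⟩
        · have hz0' : z ≠ 0 := by
            rintro rfl
            exact p2 hz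
          have hy0' : y ≠ 0 := by
            rintro rfl
            exact p3 hy
          rw [hN, hV']
          field_simp
          linear_combination -h
        · exact absurd hz p1
        · have hz0' : z ≠ 0 := by
            rintro rfl
            exact p2 hz
          rw [hN, hV']
          field_simp
          linear_combination -h
      have hsqV : ∀ p : XT, (I * fV p) ^ 2 = -fV p ^ 2 := fun p => by
        rw [mul_pow, I_sq]
        ring
      obtain ⟨N, χ, n1, n2, n3, n4, n5⟩ := ETA_gen hX2 hU (ETA_mono hIV fun p hp => hp.2)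
        (ETA_mono hH.hN fun p hp => hp.1.2) (η := eta1) he hxe ⟨⟨hxZ, hx⟩, hV⟩ z0⁻¹ hd hN0 (by simp [hV0]) I (by simp)
        (fun p hp => by rw [hd4, hsqV]; linear_combination hvy p hp)
        (fun p hp => by
          rw [hsqV]
          intro h0
          have h1 := hvy p hp
          have h2 : (1 : ℂ) - fV p ^ 2 = 0 := by linear_combination h0
          rw [h2, mul_zero] at h1
          exact X16_v2 p hp.1.1 hp.2 h1.symm) (fun p hp => ETB_N hp.1.1 hp.1.2)
        (by
          rintro p ⟨⟨p1, p2⟩, p3⟩ hpe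
          have k0 := X16_v2 p p1 p3
          have k1 := hvy p ⟨⟨p1, p2⟩, p3⟩
          have k2 := ETB_N p1 p2
          have k3 : (1 : ℂ) - fV p ^ 2 ≠ 0 := by
            intro h2
            rw [h2, mul_zero] at k1
            exact k0 k1.symm
          have he1 : eta1 e p = fN p * dd fV e p / (2 * (1 + fV p ^ 2)) := by
            by_cases hp : p.1.2 = OnePoint.infty
            · unfold eta1
              rw [if_pos hp]
            · have he0 : eta1 e p = -dd fN e p / ((1 + fN p ^ 4) * fY p) := by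
                unfold eta1
                rw [if_neg hp, if_neg p3]
              rw [he0, X16_dNY hH he hpe p2 hp p3 p1]
              have j1 := X16_dVY hH he hpe hp p3
              obtain ⟨j2, j3⟩ := X16_vy p p3 hp
              have j4 := X16_y2 p p1 hp
              have j5 : fV p = (fY p)⁻¹ := eq_inv_of_mul_eq_one_left j2
              have j6 : (1 : ℂ) + fV p ^ 2 = (1 + fY p ^ 2) / fY p ^ 2 := by
                rw [j5]
                field_simp
                ring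
              have j7 : dd fY e p = -(fY p ^ 2 * dd fV e p) := by
                rw [j5] at j1
                field_simp at j1
                linear_combination j1
              rw [j6, j7]
              field_simp
          rw [he1, hddV, hsqV, ← k1]
          have k4 : (1 : ℂ) + -fV p ^ 2 = 1 - fV p ^ 2 := by ring
          rw [k4]
          field_simp
          rw [I_sq]
          ring)
      exact ⟨N, χ, n1, n2, fun z hz => ⟨(n3 hz).1, (n3 hz).2.1.2⟩, n4, Or.inr ⟨z0⁻¹, hd, n5⟩⟩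
  · -- `Y = 0`
    have hx2 : x.1.2 = OnePoint.some 0 := not_not.1 hV
    have hY : x ∈ uY := by
      show x.1.2 ≠ OnePoint.infty
      rw [hx2]
      exact OnePoint.coe_ne_infty 0
    obtain ⟨z0, hz0, hN0, hY0, h40⟩ : ∃ z : ℂ, x.1.1 = OnePoint.some z ∧ fN x = z⁻¹ ∧ fY x = 0 ∧ z ^ 4 = 1 := by
      rcases X16_cases x with ⟨z, y, hz, hy, hN, hY', hV', h⟩ | ⟨y, hz, hy, hN, hY', hV', h⟩ | ⟨z, hz, hy, -⟩
      · rw [hy] at hx2
        have hy0 : y = 0 := OnePoint.coe_injective hx2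
        subst hy0
        exact ⟨z, hz, hN, hY', by linear_combination h⟩
      · rw [hy] at hx2
        have hy0 : y = 0 := OnePoint.coe_injective hx2
        subst hy0
        norm_num at h
      · rw [hy] at hx2
        exact absurd hx2 (OnePoint.infty_ne_coe 0)
    have hxZ : x ∈ uZ := by
      show x.1.1 ≠ OnePoint.infty
      rw [hz0]
      exact OnePoint.coe_ne_infty z0
    have hd4 : z0⁻¹ ^ 4 = 1 := by rw [inv_pow, h40]; norm_num
    have hd : z0⁻¹ ^ 8 = 1 := by
      have : z0⁻¹ ^ 8 = (z0⁻¹ ^ 4) ^ 2 := by ring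
      rw [this, hd4]
      norm_num
    have hU : IsOpen (uZ ∩ uN ∩ uY) := (hH.oZ.inter hH.oN).inter hH.oY
    have hsqY : ∀ p : XT, (I * fY p) ^ 2 = -fY p ^ 2 := fun p => by
      rw [mul_pow, I_sq]
      ring
    have hvy : ∀ p ∈ uZ ∩ uN ∩ uY, fN p ^ 4 * (1 - fY p ^ 2) = 1 + fY p ^ 2 := fun p hp => by
      linear_combination -X16_rel p hp.1.2 hp.2
    obtain ⟨N, χ, n1, n2, n3, n4, n5⟩ := ETA_gen hX2 hU (ETA_mono hIY fun p hp => hp.2)
      (ETA_mono hH.hN fun p hp => hp.1.2) (η := eta1) he hxe ⟨⟨hxZ, hx⟩, hY⟩ z0⁻¹ hd hN0 (by simp [hY0]) I (by simp)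
      (fun p hp => by rw [hd4, hsqY]; linear_combination hvy p hp)
      (fun p hp => by
        rw [hsqY]
        intro h0
        have h1 := hvy p hp
        have h2 : (1 : ℂ) - fY p ^ 2 = 0 := by linear_combination h0
        rw [h2, mul_zero] at h1
        exact X16_y2 p hp.1.1 hp.2 h1.symm) (fun p hp => ETB_N hp.1.1 hp.1.2)
      (by
        rintro p ⟨⟨p1, p2⟩, p3⟩ hpe
        have k0 := X16_y2 p p1 p3
        have k1 := hvy p ⟨⟨p1, p2⟩, p3⟩
        have k2 := ETB_N p1 p2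
        have k3 : (1 : ℂ) - fY p ^ 2 ≠ 0 := by
          intro h2
          rw [h2, mul_zero] at k1
          exact k0 k1.symm
        have he1 : eta1 e p = -(fN p * dd fY e p) / (2 * (1 + fY p ^ 2)) := by
          by_cases hp : p.1.2 = OnePoint.some 0
          · unfold eta1
            rw [if_neg p3, if_pos hp]
          · have he0 : eta1 e p = -dd fN e p / ((1 + fN p ^ 4) * fY p) := by
              unfold eta1
              rw [if_neg p3, if_neg hp]
            rw [he0, X16_dNY hH he hpe p2 p3 hp p1]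
        rw [he1, hddY, hsqY, ← k1]
        have k4 : (1 : ℂ) + -fY p ^ 2 = 1 - fY p ^ 2 := by ring
        rw [k4]
        field_simp
        rw [I_sq]
        ring)
    exact ⟨N, χ, n1, n2, fun z hz => ⟨(n3 hz).1, (n3 hz).2.1.2⟩, n4, Or.inr ⟨z0⁻¹, hd, n5⟩⟩

end

end Pool.Agent.DL
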