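import Pool.Agent.helper67.DL.SpecX

/-! # Project dl (MP_4caea3_gt), stage 2: statements of the interface with existence -/

namespace Pool.Agent.DL

open Matrix Complex
open scoped ComplexOrder Manifold ContDiff

noncomputable section

/-- The explicit surface with its charts. -/
def XE_stmt : Prop := ∃ (cs : ChartedSpace ℂ XT) (ch : Ix → OpenPartialHomeomorph XT ℂ),
  GoodX cs ch ∧ Top4 XT ∧ (DX ch).Valid

/-- Existence of the harmonic metrics on the explicit surface. -/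
def EXI_stmt : Prop := ∀ (cs : ChartedSpace ℂ XT) (ch : Ix → OpenPartialHomeomorph XT ℂ), GoodX cs ch → Top4 XT →
  (DX ch).Valid → ∀ a t : ℝ, 6 ≤ a → 1 ≤ t → (∃ H, SLHarm (BB (DX ch) a t) H) ∧
    ∃ H', SLHarm (hitchin3 (cov (DX ch) a) (q2F (DX ch) a t) (q3F (DX ch) a t)) H'

/-- The main theorem with existence of the harmonic metrics. -/
def MAIN2_stmt : Prop := ∃ (X : Type) (_ : TopologicalSpace X) (_ : ChartedSpace ℂ X), ClosedRS X ∧
  ∃ (C : Cov X) (q₂ q₃ : Fam X) (B : Higgs X 3), C.Valid ∧ IsDif Set.univ 2 q₂ ∧ IsDif Set.univ 3 q₃ ∧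
  (hitchin3 C q₂ q₃).Valid ∧ (hitchin3 C q₂ q₃).IsSL ∧
  B.Valid ∧ B.IsSL ∧ Polystable B ∧ SameFibre B (hitchin3 C q₂ q₃) ∧ ¬ IsoHiggs B (hitchin3 C q₂ q₃) ∧
  (∃ H, SLHarm B H) ∧ (∃ H', SLHarm (hitchin3 C q₂ q₃) H') ∧
  ∃ x : X, ∀ ρ, IsConf ρ → ∀ H H', SLHarm B H → SLHarm (hitchin3 C q₂ q₃) H' →
    ∀ i k, x ∈ B.C.U i → x ∈ C.U k → energyAt ρ (hitchin3 C q₂ q₃) H' k x < energyAt ρ B H i x

end

end Pool.Agent.DL
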