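import Pool.Agent.helper67.DL.DefsG

/-! # Project dl (MP_4caea3_gt), parts G and X: the example -/

namespace Pool.Agent.DL

open Matrix Complex
open scoped ComplexOrder Manifold ContDiff

noncomputable section

/-! ## The interface with the explicit surface `w² = 1 - ζ⁸`

`U0 = {ζ ≠ ∞}`, `U1 = {ζ ≠ 0}`, `ν = 1/ζ`, `η0 = dζ/w`, `η0 = ν² η1`, `τ(ζ,w) = (-ζ,w)`, `x0 = (0,1)`, `x1` a point over `∞`,
`e0` a chart near `x0` given by `ζ` (its target may be larger than the disc of radius `1/2`). -/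

/-- Raw data. -/
structure CD (X : Type) [TopologicalSpace X] [ChartedSpace ℂ X] where
  U0 : Set X
  U1 : Set X
  ζ : X → ℂ
  ν : X → ℂ
  η0 : Fam X
  η1 : Fam X
  τ : X → X
  x0 : X
  x1 : X
  e0 : OpenPartialHomeomorph X ℂ

/-- Properties of the data. -/
structure CD.Valid {X : Type} [TopologicalSpace X] [ChartedSpace ℂ X] (D : CD X) : Prop where
  open0 : IsOpen D.U0
  open1 : IsOpen D.U1
  cover : ∀ x, x ∈ D.U0 ∨ x ∈ D.U1
  dense0 : Dense D.U0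
  dense1 : Dense D.U1
  holo0 : HoloOn D.ζ D.U0
  holo1 : HoloOn D.ν D.U1
  mul : ∀ x ∈ D.U0 ∩ D.U1, D.ζ x * D.ν x = 1
  dif0 : IsDif D.U0 1 D.η0
  dif1 : IsDif D.U1 1 D.η1
  ne0 : ∀ x ∈ D.U0, D.η0 (chartAt ℂ x) x ≠ 0
  ne1 : ∀ x ∈ D.U1, D.η1 (chartAt ℂ x) x ≠ 0
  rel : ∀ e ∈ atlas ℂ X, ∀ x ∈ D.U0 ∩ D.U1, x ∈ e.source → D.η0 e x = D.ν x ^ 2 * D.η1 e x
  tauc : Continuous D.τ
  tau0 : ∀ x ∈ D.U0, D.τ x ∈ D.U0 ∧ D.ζ (D.τ x) = -D.ζ x
  tau1 : ∀ x ∈ D.U1, D.τ x ∈ D.U1 ∧ D.ν (D.τ x) = -D.ν x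
  tauh : ∀ e ∈ atlas ℂ X, ∀ e' ∈ atlas ℂ X,
    DifferentiableOn ℂ (fun z => e' (D.τ (e.symm z))) (e.target ∩ e.symm ⁻¹' (D.τ ⁻¹' e'.source))
  taue0 : ∀ e ∈ atlas ℂ X, ∀ e' ∈ atlas ℂ X, ∀ x ∈ D.U0, x ∈ e.source → D.τ x ∈ e'.source →
    D.η0 e' (D.τ x) * deriv (fun z => e' (D.τ (e.symm z))) (e x) = -D.η0 e x
  taue1 : ∀ e ∈ atlas ℂ X, ∀ e' ∈ atlas ℂ X, ∀ x ∈ D.U1, x ∈ e.source → D.τ x ∈ e'.source →
    D.η1 e' (D.τ x) * deriv (fun z => e' (D.τ (e.symm z))) (e x) = -D.η1 e x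
  x0mem : D.x0 ∈ D.U0
  x0z : D.ζ D.x0 = 0
  x0t : D.τ D.x0 = D.x0
  x1mem : D.x1 ∈ D.U1
  x1z : D.ν D.x1 = 0
  e0a : D.e0 ∈ atlas ℂ X
  e0t : Metric.ball 0 (1 / 2) ⊆ D.e0.target
  e0z : ∀ z ∈ Metric.ball (0 : ℂ) (1 / 2), D.e0.symm z ∈ D.U0 ∧ D.ζ (D.e0.symm z) = z ∧
    1 / 2 ≤ ‖D.η0 D.e0 (D.e0.symm z)‖ ^ 2 ∧ ‖D.η0 D.e0 (D.e0.symm z)‖ ^ 2 ≤ 2
  e0x : D.e0.symm 0 = D.x0

/-- The topological part of `ClosedRS`. -/
def Top4 (X : Type) [TopologicalSpace X] [ChartedSpace ℂ X] : Prop :=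
  IsManifold 𝓘(ℂ) ω X ∧ CompactSpace X ∧ T2Space X ∧ ConnectedSpace X

/-- XX. Existence of the surface (part X). -/
def XX_stmt : Prop := ∃ (X : Type) (_ : TopologicalSpace X) (_ : ChartedSpace ℂ X), Top4 X ∧ ∃ D : CD X, D.Valid

section
variable {X : Type} [TopologicalSpace X] [ChartedSpace ℂ X] (D : CD X)

open Classical in
/-- The global form `ω₁ = η0`. -/
def w1 : Fam X := fun e x => if x ∈ D.U0 then D.η0 e x else D.ν x ^ 2 * D.η1 e x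

open Classical in
/-- The global form `ω₂ = ζ η0`. -/
def w2 : Fam X := fun e x => if x ∈ D.U0 then D.ζ x * D.η0 e x else D.ν x * D.η1 e x

/-- The cover `{U0, U1}` with the forms `a η0`, `a η1`. -/
def cov (a : ℝ) : Cov X where
  ι := Bool
  U := fun i : Bool => match i with
    | false => D.U0
    | true => D.U1
  η := fun i : Bool => match i with
    | false => fun e x => (a : ℂ) * D.η0 e x
    | true => fun e x => (a : ℂ) * D.η1 e x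

/-- Cocycle of `K^{1/2} ⊕ K^{-1/2} ⊕ O`. -/
def gB (i j : Bool) (x : X) : Matrix (Fin 3) (Fin 3) ℂ := match i, j with
  | false, false => 1
  | true, true => 1
  | false, true => diagonal ![D.ζ x, D.ν x, 1]
  | true, false => diagonal ![D.ν x, D.ζ x, 1]

/-- Cocycle of `K^{1/2} ⊕ K^{-1/2}`. -/
def gV (i j : Bool) (x : X) : Matrix (Fin 2) (Fin 2) ℂ := match i, j with
  | false, false => 1
  | true, true => 1
  | false, true => diagonal ![D.ζ x, D.ν x]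
  | true, false => diagonal ![D.ν x, D.ζ x]

/-- `s = (i t a²/3) ω₂`. -/
def sF (a t : ℝ) : Fam X := fun e x => I * t * (a : ℂ) ^ 2 / 3 * w2 D e x

/-- `q = t² a² (ω₁² - a² ω₂²)`. -/
def qF (a t : ℝ) : Fam X := fun e x => (t : ℂ) ^ 2 * (a : ℂ) ^ 2 * (w1 D e x ^ 2 - (a : ℂ) ^ 2 * w2 D e x ^ 2)

/-- `q₂ = 3s² + q`. -/
def q2F (a t : ℝ) : Fam X := fun e x => 3 * sF D a t e x ^ 2 + qF D a t e x

/-- `q₃ = -2s(s² - q)`. -/
def q3F (a t : ℝ) : Fam X := fun e x => -2 * sF D a t e x * (sF D a t e x ^ 2 - qF D a t e x)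

/-- The other point of the fibre: `(K^{1/2} ⊕ K^{-1/2}, [[s,q],[1,s]]) ⊕ (O, -2s)`. -/
def BB (a t : ℝ) : Higgs X 3 where
  C := cov D a
  g := gB D
  A i x := !![quo (sF D a t) ((cov D a).η i) 1 x, quo (qF D a t) ((cov D a).η i) 2 x, 0;
    1, quo (sF D a t) ((cov D a).η i) 1 x, 0; 0, 0, -2 * quo (sF D a t) ((cov D a).η i) 1 x]

/-- Its rank two part. -/
def BV (a t : ℝ) : Higgs X 2 where
  C := cov D a
  g := gV D
  A i x := !![quo (sF D a t) ((cov D a).η i) 1 x, quo (qF D a t) ((cov D a).η i) 2 x;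
    1, quo (sF D a t) ((cov D a).η i) 1 x]

/-- Its rank one part. -/
def BO (a t : ℝ) : Higgs X 1 where
  C := cov D a
  g _ _ _ := 1
  A i x := !![-2 * quo (sF D a t) ((cov D a).η i) 1 x]

/-- The Hitchin section in symmetric form. -/
def hitS (C : Cov X) (q₂ q₃ : Fam X) : Higgs X 3 where
  C := C
  g i j x := diagonal ![C.rat i j x, 1, C.rat j i x]
  A i x := !![0, quo q₂ (C.η i) 2 x / 2, quo q₃ (C.η i) 3 x; 1, 0, quo q₂ (C.η i) 2 x / 2; 0, 1, 0]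

/-- The unipotent change of frames. -/
def uni (C : Cov X) (q₂ : Fam X) (c : ℂ) (i : C.ι) (x : X) : Matrix (Fin 3) (Fin 3) ℂ :=
  !![1, 0, c * (quo q₂ (C.η i) 2 x / 2); 0, 1, 0; 0, 0, 1]

end

/-- The antidiagonal matrix. -/
def JJ : Matrix (Fin 3) (Fin 3) ℂ := !![0, 0, 1; 0, 1, 0; 1, 0, 0]

/-- The matrix of `τ`. -/
def DD : Matrix (Fin 3) (Fin 3) ℂ := diagonal ![-1, 1, -1]

/-! ## General lemmas -/

/-- GA. A nowhere vanishing form: coefficients and derivatives of chart changes are nonzero, quotients can be computed in any chart. -/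
def GA_stmt : Prop := ∀ (X : Type) [TopologicalSpace X] [ChartedSpace ℂ X] (U : Set X) (η : Fam X), IsDif U 1 η →
  (∀ x ∈ U, η (chartAt ℂ x) x ≠ 0) → (∀ e ∈ atlas ℂ X, ∀ x ∈ U, x ∈ e.source → η e x ≠ 0) ∧
  (∀ e ∈ atlas ℂ X, ∀ e' ∈ atlas ℂ X, ∀ x ∈ U, x ∈ e.source → x ∈ e'.source →
    deriv (fun z => e' (e.symm z)) (e x) ≠ 0) ∧
  ∀ (m : ℕ) (q : Fam X) (V : Set X), IsOpen U → IsOpen V → IsDif V m q → HoloOn (quo q η m) (U ∩ V) ∧
    ∀ e ∈ atlas ℂ X, ∀ x ∈ U ∩ V, x ∈ e.source → quo q η m x = q e x / η e x ^ m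

/-- GB. Sums and products of sections of powers of `K`; holomorphic functions. -/
def GB_stmt : Prop := ∀ (X : Type) [TopologicalSpace X] [ChartedSpace ℂ X] (U : Set X) (m n : ℕ) (p q : Fam X) (f : X → ℂ),
  IsDif U m p → (IsDif U n q → IsDif U (m + n) (fun e x => p e x * q e x)) ∧
  (IsDif U m q → IsDif U m (fun e x => p e x + q e x)) ∧ (HoloOn f U → IsDif U m (fun e x => f x * p e x))

/-- GC. Coordinate changes for Hitchin's equation (the derivative of `ψ` may vanish). -/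
def GC_stmt : Prop := ∀ (n : ℕ) (Ω Ω' : Set ℂ) (ψ : ℂ → ℂ) (A H : ℂ → Matrix (Fin n) (Fin n) ℂ) (W W' : ℂ → ℝ),
  IsOpen Ω → IsOpen Ω' → DifferentiableOn ℂ ψ Ω → Set.MapsTo ψ Ω Ω' → LH n Ω' A W H →
  (∀ z ∈ Ω, W' z = W (ψ z) * ‖deriv ψ z‖ ^ 2) → LH n Ω (fun z => A (ψ z)) W' (fun z => H (ψ z))

/-- GE. Gauge transformations, and the sign of the Higgs field, adding a scalar, the dual. -/
def GE_stmt : Prop := ∀ (n : ℕ) (Ω : Set ℂ) (A H G : ℂ → Matrix (Fin n) (Fin n) ℂ) (W : ℂ → ℝ), IsOpen Ω →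
  LH n Ω A W H → HM Ω G → (∀ z ∈ Ω, IsUnit (G z).det) →
  LH n Ω (fun z => (G z)⁻¹ * A z * G z) W (fun z => (G z)ᴴ * H z * G z) ∧
  LH n Ω (fun z => -A z) W H ∧ (∀ c : ℂ → ℂ, LH n Ω (fun z => A z + c z • 1) W H) ∧
  LH n Ω (fun z => (A z)ᵀ) W (fun z => ((H z)ᵀ)⁻¹)

/-- SM. Strong maximum principle in a disc. -/
def SM_stmt : Prop := ∀ (u : ℂ → ℝ) (c : ℂ) (r : ℝ), 0 < r → ContDiffOn ℝ 2 u (Metric.ball c r) →
  (∀ z ∈ Metric.ball c r, 0 ≤ lap u z) → (∀ z ∈ Metric.ball c r, u z ≤ u c) → ∀ z ∈ Metric.ball c r, u z = u c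

/-- SX. Subharmonic functions on a compact connected surface are constant (SM). -/
def SX_stmt : Prop := ∀ (X : Type) [TopologicalSpace X] [ChartedSpace ℂ X], CompactSpace X → ConnectedSpace X →
  ∀ N : X → ℝ, (∀ e ∈ atlas ℂ X, ContDiffOn ℝ 2 (fun z => N (e.symm z)) e.target ∧
    ∀ z ∈ e.target, 0 ≤ lap (fun w => N (e.symm w)) z) → ∀ x y, N x = N y

/-- HC. Holomorphic functions on a compact connected surface are constant (maximum modulus, or SX). -/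
def HC_stmt : Prop := ∀ (X : Type) [TopologicalSpace X] [ChartedSpace ℂ X], Top4 X → ∀ f : X → ℂ,
  HoloOn f Set.univ → ∀ x y, f x = f y

/-- UN. Two harmonic metrics of one Higgs bundle on a compact connected surface: `S = H⁻¹H'` is holomorphic and commutes with `A`
(WI for the identity, `tr S` is subharmonic, SX; then `θ = θ'` gives `∂̄S = 0`, and `A* = A'*` gives `[A,S] = 0`). -/
def UN_stmt : Prop := ∀ (X : Type) [TopologicalSpace X] [ChartedSpace ℂ X], Top4 X → ∀ (n : ℕ) (B : Higgs X n), B.Valid →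
  ∀ H H', Harm B H → Harm B H' →
  ∀ i, (∀ a b, HoloOn (fun x => ((H i x)⁻¹ * H' i x) a b) (B.C.U i)) ∧
    ∀ x ∈ B.C.U i, B.A i x * ((H i x)⁻¹ * H' i x) = ((H i x)⁻¹ * H' i x) * B.A i x

/-- UP. A holomorphic endomorphism `P` commuting with `A` has constant norm if the surface is compact and connected, and then
`P A* = A* P` (WI, SX). -/
def UP_stmt : Prop := ∀ (X : Type) [TopologicalSpace X] [ChartedSpace ℂ X], Top4 X → ∀ (n : ℕ) (B : Higgs X n), B.Valid →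
  ∀ H, Harm B H → ∀ P : B.C.ι → X → Matrix (Fin n) (Fin n) ℂ, (∀ i a b, HoloOn (fun x => P i x a b) (B.C.U i)) →
  (∀ i j, ∀ x ∈ B.C.U i ∩ B.C.U j, B.g i j x * P j x = P i x * B.g i j x) →
  (∀ i, ∀ x ∈ B.C.U i, P i x * B.A i x = B.A i x * P i x) →
  (∀ i j, ∀ x ∈ B.C.U i, ∀ y ∈ B.C.U j, nn (H i x) (P i x) = nn (H j y) (P j y)) ∧
  ∀ i, ∀ x ∈ B.C.U i, P i x * adj (H i x) (B.A i x) = adj (H i x) (B.A i x) * P i x

/-! ## The Hitchin section -/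

/-- HH. `hitchin3` and `hitS` are valid `SL(3)`-Higgs bundles (GA). -/
def HH_stmt : Prop := ∀ (X : Type) [TopologicalSpace X] [ChartedSpace ℂ X] (C : Cov X) (q₂ q₃ : Fam X), C.Valid →
  IsDif Set.univ 2 q₂ → IsDif Set.univ 3 q₃ →
  (hitchin3 C q₂ q₃).Valid ∧ (hitchin3 C q₂ q₃).IsSL ∧ (hitS C q₂ q₃).Valid ∧ (hitS C q₂ q₃).IsSL

/-- HT. Transfer to the symmetric form: `A_sym = u A u⁻¹`, `u = uni 1`, `H_sym = (u⁻¹)ᴴ H u⁻¹`, `u⁻¹ = uni (-1)` (GE, GA). -/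
def HT_stmt : Prop := ∀ (X : Type) [TopologicalSpace X] [ChartedSpace ℂ X] (C : Cov X) (q₂ q₃ : Fam X), C.Valid →
  IsDif Set.univ 2 q₂ → IsDif Set.univ 3 q₃ → ∀ H, SLHarm (hitchin3 C q₂ q₃) H →
  SLHarm (hitS C q₂ q₃) (fun i x => (uni C q₂ (-1) i x)ᴴ * H i x * uni C q₂ (-1) i x) ∧
  ∀ i, ∀ x ∈ C.U i, nn ((uni C q₂ (-1) i x)ᴴ * H i x * uni C q₂ (-1) i x) ((hitS C q₂ q₃).A i x) =
    nn (H i x) ((hitchin3 C q₂ q₃).A i x)

/-- HD. The dual metric is harmonic (symmetry of `A` for `JJ`; GE). -/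
def HD_stmt : Prop := ∀ (X : Type) [TopologicalSpace X] [ChartedSpace ℂ X] (C : Cov X) (q₂ q₃ : Fam X), C.Valid →
  IsDif Set.univ 2 q₂ → IsDif Set.univ 3 q₃ → ∀ H, SLHarm (hitS C q₂ q₃) H →
  SLHarm (hitS C q₂ q₃) (fun i x => JJ * ((H i x)ᵀ)⁻¹ * JJ)

/-- ND. Negative powers of `K` have no sections on the example: the functions `c0`, `ζ c0` extend to holomorphic functions on `X`
(HC). -/
def ND_stmt : Prop := ∀ (X : Type) [TopologicalSpace X] [ChartedSpace ℂ X] (D : CD X), Top4 X → D.Valid →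
  ∀ (m : ℕ) (c0 c1 : X → ℂ), 1 ≤ m → HoloOn c0 D.U0 → HoloOn c1 D.U1 →
  (∀ x ∈ D.U0 ∩ D.U1, c0 x = D.ν x ^ (2 * m) * c1 x) → (∀ x ∈ D.U0, c0 x = 0) ∧ ∀ x ∈ D.U1, c1 x = 0

/-- HU. Uniqueness of the harmonic metric of the symmetric Hitchin section on the example (UN, ND: `S = c₀ + c₁A + c₂A²`,
`c₂ = S₃₁`, `c₁ = S₂₁`, both zero by ND; HC; determinant one and positivity). -/
def HU_stmt : Prop := ∀ (X : Type) [TopologicalSpace X] [ChartedSpace ℂ X] (D : CD X), Top4 X → D.Valid →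
  ∀ (a t : ℝ), 0 < a → 0 < t → ∀ H H', SLHarm (hitS (cov D a) (q2F D a t) (q3F D a t)) H →
  SLHarm (hitS (cov D a) (q2F D a t) (q3F D a t)) H' → ∀ i, ∀ x ∈ (cov D a).U i, H i x = H' i x

/-- HS. The image under `τ` is harmonic (GC with `ψ = e' ∘ τ ∘ e.symm`, GE for the sign: `DD A(τx) DD = -A(x)`). -/
def HS_stmt : Prop := ∀ (X : Type) [TopologicalSpace X] [ChartedSpace ℂ X] (D : CD X), Top4 X → D.Valid →
  ∀ (a t : ℝ), 0 < a → 0 < t → ∀ H, SLHarm (hitS (cov D a) (q2F D a t) (q3F D a t)) H →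
  SLHarm (hitS (cov D a) (q2F D a t) (q3F D a t)) (fun i x => DD * H i (D.τ x) * DD)

/-- HA. Algebra: a metric invariant under `DD` and the duality is diagonal. -/
def HA_stmt : Prop := ∀ H : Matrix (Fin 3) (Fin 3) ℂ, H.PosDef → H = DD * H * DD → H = JJ * (Hᵀ)⁻¹ * JJ →
  ∃ h : ℝ, 0 < h ∧ H = diagonal ![(h : ℂ), 1, ((1 / h : ℝ) : ℂ)]

/-- EX. The explicit data: validity of the cover, forms, quotients `s/η = ss t (aζ)`, `q/η² = qq t (aζ)` on `U0`, etc. -/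
def EX_stmt : Prop := ∀ (X : Type) [TopologicalSpace X] [ChartedSpace ℂ X] (D : CD X), D.Valid → ∀ (a t : ℝ), 0 < a → 0 < t →
  (cov D a).Valid ∧ IsDif Set.univ 1 (w1 D) ∧ IsDif Set.univ 1 (w2 D) ∧ IsDif Set.univ 1 (sF D a t) ∧
  IsDif Set.univ 2 (qF D a t) ∧ IsDif Set.univ 2 (q2F D a t) ∧ IsDif Set.univ 3 (q3F D a t) ∧
  (∀ x ∈ D.U0 ∩ D.U1, (cov D a).rat false true x = D.ζ x ^ 2 ∧ (cov D a).rat true false x = D.ν x ^ 2) ∧
  (∀ i, ∀ x ∈ (cov D a).U i, (cov D a).rat i i x = 1) ∧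
  (∀ x ∈ D.U0, quo (sF D a t) ((cov D a).η false) 1 x = ss t (a * D.ζ x) ∧
    quo (qF D a t) ((cov D a).η false) 2 x = qq t (a * D.ζ x)) ∧
  (∀ x ∈ D.U1, quo (sF D a t) ((cov D a).η true) 1 x = I * t * a / 3 * D.ν x ∧
    quo (qF D a t) ((cov D a).η true) 2 x = (t : ℂ) ^ 2 * (D.ν x ^ 4 - (a : ℂ) ^ 2 * D.ν x ^ 2)) ∧
  ∀ i, ∀ x ∈ (cov D a).U i,
    quo (q2F D a t) ((cov D a).η i) 2 x =
      3 * quo (sF D a t) ((cov D a).η i) 1 x ^ 2 + quo (qF D a t) ((cov D a).η i) 2 x ∧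
    quo (q3F D a t) ((cov D a).η i) 3 x = -2 * quo (sF D a t) ((cov D a).η i) 1 x *
      (quo (sF D a t) ((cov D a).η i) 1 x ^ 2 - quo (qF D a t) ((cov D a).η i) 2 x)

/-- HL. The local data of a harmonic metric of the Hitchin section in the coordinate `z = aζ` (GC, EX). -/
def HL_stmt : Prop := ∀ (X : Type) [TopologicalSpace X] [ChartedSpace ℂ X] (D : CD X), Top4 X → D.Valid →
  ∀ (a t R : ℝ), 0 < t → 1 ≤ R → a = 2 * (R + 2) → ∀ H, SLHarm (hitS (cov D a) (q2F D a t) (q3F D a t)) H →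
  (∀ z ∈ Metric.ball (0 : ℂ) (R + 2), 1 / 2 ≤ ‖D.η0 D.e0 (D.e0.symm (z / a))‖ ^ 2 ∧
    ‖D.η0 D.e0 (D.e0.symm (z / a))‖ ^ 2 ≤ 2) ∧
  LH 3 (Metric.ball 0 (R + 2)) (AA t) (fun z => ‖D.η0 D.e0 (D.e0.symm (z / a))‖ ^ 2)
    (fun z => H false (D.e0.symm (z / a))) ∧
  (hitS (cov D a) (q2F D a t) (q3F D a t)).A false D.x0 = AA t 0

/-! ## The other point of the fibre -/

/-- BA. Validity, `SL`, morphisms of the parts. -/
def BA_stmt : Prop := ∀ (X : Type) [TopologicalSpace X] [ChartedSpace ℂ X] (D : CD X), D.Valid → ∀ (a t : ℝ), 0 < a → 0 < t →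
  (BB D a t).Valid ∧ (BB D a t).IsSL ∧ (BV D a t).Valid ∧ (BO D a t).Valid ∧ HasDegree (BV D a t) 0 ∧
  HasDegree (BO D a t) 0

/-- BS. The rank two part is stable: it has no Higgs line subbundle (an eigenvalue `μ` would be holomorphic near the zero
`aζ = 1` of `q/η²` with `(μ - s)² = q`; differentiate). -/
def BS_stmt : Prop := ∀ (X : Type) [TopologicalSpace X] [ChartedSpace ℂ X] (D : CD X), D.Valid → ∀ (a t : ℝ), 2 < a → 0 < t →
  Stable (BV D a t) ∧ Stable (BO D a t)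

/-- BP. Polystability (BA, BS). -/
def BP_stmt : Prop := ∀ (X : Type) [TopologicalSpace X] [ChartedSpace ℂ X] (D : CD X), D.Valid → ∀ (a t : ℝ), 2 < a → 0 < t →
  Polystable (BB D a t)

/-- BF. Same Hitchin fibre (EX: `L³ - q₂L - q₃ = ((L-s)² - q)(L+2s)`). -/
def BF_stmt : Prop := ∀ (X : Type) [TopologicalSpace X] [ChartedSpace ℂ X] (D : CD X), D.Valid → ∀ (a t : ℝ), 0 < a → 0 < t →
  SameFibre (BB D a t) (hitchin3 (cov D a) (q2F D a t) (q3F D a t))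

/-- BN. Not isomorphic: at `x1` (`ν = 0`) the Higgs fields have ranks `1` and `2`. -/
def BN_stmt : Prop := ∀ (X : Type) [TopologicalSpace X] [ChartedSpace ℂ X] (D : CD X), D.Valid → ∀ (a t : ℝ), 0 < a → 0 < t →
  ¬ IsoHiggs (BB D a t) (hitchin3 (cov D a) (q2F D a t) (q3F D a t))

/-- BG. Genus at least two: `ω₁`, `ω₂` are independent. -/
def BG_stmt : Prop := ∀ (X : Type) [TopologicalSpace X] [ChartedSpace ℂ X] (D : CD X), Top4 X → D.Valid → ClosedRS X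

/-- BX. Step 1: the line `O` is orthogonal to the rank two part. (UP with `P = diag(0,0,1)`: the norm is constant; at the point
`aζ = 1` where `q = 0`, `s ≠ 0`, the adjoint `P*` commutes with `A`, is an idempotent of rank one and must be `P`, so the norm is
one; an idempotent with `|P|² = tr P` is self-adjoint.) -/
def BX_stmt : Prop := ∀ (X : Type) [TopologicalSpace X] [ChartedSpace ℂ X] (D : CD X), Top4 X → D.Valid →
  ∀ (a t : ℝ), 2 < a → 0 < t → ∀ H, SLHarm (BB D a t) H → ∀ i, ∀ x ∈ (cov D a).U i,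
  H i x 0 2 = 0 ∧ H i x 1 2 = 0 ∧ H i x 2 0 = 0 ∧ H i x 2 1 = 0

/-- BY. Step 2: the norm on `O` is constant (`log H₃₃` is harmonic; SX), and the rank two block is harmonic. -/
def BY_stmt : Prop := ∀ (X : Type) [TopologicalSpace X] [ChartedSpace ℂ X] (D : CD X), Top4 X → D.Valid →
  ∀ (a t : ℝ), 2 < a → 0 < t → ∀ H, SLHarm (BB D a t) H →
  (∀ i, ∀ x ∈ (cov D a).U i, H i x 0 2 = 0 ∧ H i x 1 2 = 0 ∧ H i x 2 0 = 0 ∧ H i x 2 1 = 0) →
  (∃ c : ℝ, 0 < c ∧ ∀ i, ∀ x ∈ (cov D a).U i, H i x 2 2 = c) ∧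
  Harm (BV D a t) (fun i x => !![H i x 0 0, H i x 0 1; H i x 1 0, H i x 1 1])

/-- BZ. Step 3: a harmonic metric of the rank two part is diagonal (its image under `diag(1,-1)` is harmonic, UN, ND:
`S = α + βA₀`, `β = 0`, `α` constant, `α² = 1`, `α > 0`). -/
def BZ_stmt : Prop := ∀ (X : Type) [TopologicalSpace X] [ChartedSpace ℂ X] (D : CD X), Top4 X → D.Valid →
  ∀ (a t : ℝ), 2 < a → 0 < t → ∀ K, Harm (BV D a t) K → ∀ i, ∀ x ∈ (cov D a).U i, K i x 0 1 = 0 ∧ K i x 1 0 = 0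

/-- BW. Step 4: with `k₁ = K₀₀`, `k₂ = K₁₁`, `k₁ k₂` constant, the function `|q/η²|² (k₁/k₂)²` on `X` is at most one (at its
maximum `lap log ≤ 0`), and `L = log(k₁/k₂)/2` in the coordinate `z = aζ` satisfies the scalar equation (GC, MX, LA, RA). -/
def BW_stmt : Prop := ∀ (X : Type) [TopologicalSpace X] [ChartedSpace ℂ X] (D : CD X), Top4 X → D.Valid →
  ∀ (a t : ℝ), 6 ≤ a → 1 ≤ t → ∀ K, Harm (BV D a t) K →
  (∀ i, ∀ x ∈ (cov D a).U i, K i x 0 1 = 0 ∧ K i x 1 0 = 0) →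
  SH t (fun z => ‖D.η0 D.e0 (D.e0.symm (z / a))‖ ^ 2)
    (fun z => Real.log ((K false (D.e0.symm (z / a)) 0 0).re / (K false (D.e0.symm (z / a)) 1 1).re) / 2)

/-- FIN. The final comparison at `x0` (LOC, HT, HD, HS, HU, HA, HL, BX, BY, BZ, BW; at `x0`: `s = 0`, `q/η² = t²`). -/
def FIN_stmt : Prop := ∀ (X : Type) [TopologicalSpace X] [ChartedSpace ℂ X] (D : CD X), Top4 X → D.Valid →
  ∃ a t : ℝ, 6 ≤ a ∧ 1 ≤ t ∧ ∀ H H', SLHarm (BB D a t) H → SLHarm (hitchin3 (cov D a) (q2F D a t) (q3F D a t)) H' →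
  nn (H' false D.x0) ((hitchin3 (cov D a) (q2F D a t) (q3F D a t)).A false D.x0) <
    nn (H false D.x0) ((BB D a t).A false D.x0)

end

end Pool.Agent.DL
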