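import Mathlib

/-! # Project dl (MP_4caea3_gt), part L: local analysis of Hitchin's equation on domains of the plane

Paper proof: /team-store/MP_4caea3_proof_helper67.md.  The answer to the question is negative for `n = 3`.

Local data on an open set of `ℂ`: a holomorphic matrix function `A` (the Higgs field is `A η`), a weight `W = |η/dz|²`, a hermitian
metric given by a matrix function `H` (`h(s,t) = t^* H s`).  Hitchin's equation is `∂̄(H⁻¹∂H) = W [A, A*]`, `A* = H⁻¹ Aᴴ H`. -/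

namespace Pool.Agent.DL

open Matrix Complex
open scoped ComplexOrder

noncomputable section

/-- `∂f/∂z`. -/
def dz (f : ℂ → ℂ) (z : ℂ) : ℂ := (fderiv ℝ f z 1 - I * fderiv ℝ f z I) / 2

/-- `∂f/∂z̄`. -/
def dzb (f : ℂ → ℂ) (z : ℂ) : ℂ := (fderiv ℝ f z 1 + I * fderiv ℝ f z I) / 2

/-- Entrywise `∂/∂z`. -/
def mdz {m n : ℕ} (F : ℂ → Matrix (Fin m) (Fin n) ℂ) (z : ℂ) : Matrix (Fin m) (Fin n) ℂ :=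
  Matrix.of fun a b => dz (fun w => F w a b) z

/-- Entrywise `∂/∂z̄`. -/
def mdzb {m n : ℕ} (F : ℂ → Matrix (Fin m) (Fin n) ℂ) (z : ℂ) : Matrix (Fin m) (Fin n) ℂ :=
  Matrix.of fun a b => dzb (fun w => F w a b) z

/-- The adjoint `A* = H⁻¹ Aᴴ H` with respect to the hermitian form `H`. -/
def adj {n : ℕ} (H A : Matrix (Fin n) (Fin n) ℂ) : Matrix (Fin n) (Fin n) ℂ := H⁻¹ * Aᴴ * H

/-- `|P|²` for `P : (ℂ^n, H₁) → (ℂ^m, H₂)`, i.e. `tr (P* P)`. -/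
def nn2 {m n : ℕ} (H₁ : Matrix (Fin n) (Fin n) ℂ) (H₂ : Matrix (Fin m) (Fin m) ℂ)
    (P : Matrix (Fin m) (Fin n) ℂ) : ℝ := (trace (H₁⁻¹ * Pᴴ * H₂ * P)).re

/-- `|P|²` for an endomorphism of `(ℂ^n, H)`: `tr (P* P)`. -/
def nn {n : ℕ} (H P : Matrix (Fin n) (Fin n) ℂ) : ℝ := nn2 H H P

/-- The operator `∂²/∂z∂z̄ = Δ/4` on real functions. -/
def lap (u : ℂ → ℝ) (z : ℂ) : ℝ :=
  (iteratedDeriv 2 (fun t : ℝ => u (z + t)) 0 + iteratedDeriv 2 (fun t : ℝ => u (z + t * I)) 0) / 4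

/-- Holomorphic matrix function. -/
def HM {m n : ℕ} (Ω : Set ℂ) (A : ℂ → Matrix (Fin m) (Fin n) ℂ) : Prop :=
  ∀ a b, DifferentiableOn ℂ (fun z => A z a b) Ω

/-- `H` is a `C²` hermitian metric on `Ω` satisfying Hitchin's equation for the Higgs field `A η`, `|η|² = W |dz|²`. -/
structure LH (n : ℕ) (Ω : Set ℂ) (A : ℂ → Matrix (Fin n) (Fin n) ℂ) (W : ℂ → ℝ)
    (H : ℂ → Matrix (Fin n) (Fin n) ℂ) : Prop where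
  pos : ∀ z ∈ Ω, (H z).PosDef
  smooth : ∀ a b, ContDiffOn ℝ 2 (fun z => H z a b) Ω
  eq : ∀ z ∈ Ω, mdzb (fun w => (H w)⁻¹ * mdz H w) z =
    ((W z : ℝ) : ℂ) • (A z * adj (H z) (A z) - adj (H z) (A z) * A z)

/-! ### Matrices -/

/-- MR. Reduction to the standard form: `H = Lᴴ L`, `|P|²_H` is the sum of the squares of the entries of `L P L⁻¹`. -/
def MR_stmt : Prop := ∀ (n : ℕ) (H : Matrix (Fin n) (Fin n) ℂ), H.PosDef → ∃ L : Matrix (Fin n) (Fin n) ℂ,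
  IsUnit L.det ∧ H = Lᴴ * L ∧ (∀ P, nn H P = ∑ a, ∑ b, ‖(L * P * L⁻¹) a b‖ ^ 2) ∧
  ∀ P, L * adj H P * L⁻¹ = (L * P * L⁻¹)ᴴ

/-- MN. Elementary properties of the norm (MR, Cauchy-Schwarz). -/
def MN_stmt : Prop := ∀ (n : ℕ) (H : Matrix (Fin n) (Fin n) ℂ), H.PosDef →
  (∀ P, 0 ≤ nn H P) ∧ (∀ P, nn H P = 0 → P = 0) ∧ (∀ (c : ℂ) (P), nn H (c • P) = ‖c‖ ^ 2 * nn H P) ∧
  (∀ P Q, Real.sqrt (nn H (P + Q)) ≤ Real.sqrt (nn H P) + Real.sqrt (nn H Q)) ∧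
  (∀ P Q, nn H (P * Q) ≤ nn H P * nn H Q) ∧ nn H 1 = n ∧
  (∀ (P) (c : ℂ), trace P = 0 → nn H (P + c • 1) = nn H P + n * ‖c‖ ^ 2) ∧
  (∀ P, nn H (adj H P) = nn H P)

/-- MT. Schur: a `3 × 3` matrix is unitarily similar to an upper triangular one. -/
def MT_stmt : Prop := ∀ B : Matrix (Fin 3) (Fin 3) ℂ, ∃ U ∈ unitaryGroup (Fin 3) ℂ,
  ∀ i j : Fin 3, j < i → (U * B * Uᴴ) i j = 0

/-- M1. Henrici's inequality (MR, MT; diagonal of `[B,Bᴴ]` in Schur form is `(x+y, z-x, -(y+z))`,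
`(x+y)² + (y+z)² ≥ (x+2y+z)²/2`). -/
def M1_stmt : Prop := ∀ (H A : Matrix (Fin 3) (Fin 3) ℂ) (l : Fin 3 → ℂ), H.PosDef →
  A.charpoly = ∏ i, (Polynomial.X - Polynomial.C (l i)) →
  ∑ i, ‖l i‖ ^ 2 ≤ nn H A ∧
  (nn H A - ∑ i, ‖l i‖ ^ 2) ^ 2 / 2 ≤ nn H (A * adj H A - adj H A * A)

/-- M2. Rank one idempotent `Π = e cᵀ` commuting with `B`, `BΠ = ΠB = lam Π`, `C = B - lam`, `GC = CG = 1 - Π`, `m = |Π|²`: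
`|[B*,Π]|² = |C*Π|² + |ΠC*|²` (as `ΠC = 0`), `(1-Π*)Π = G*C*Π`, `|(1-Π*)Π|² = m² - m`, similarly on the other side. -/
def M2_stmt : Prop := ∀ (H B G : Matrix (Fin 3) (Fin 3) ℂ) (e c : Fin 3 → ℂ) (lam : ℂ), H.PosDef → c ⬝ᵥ e = 1 →
  B * vecMulVec e c = lam • vecMulVec e c → vecMulVec e c * B = lam • vecMulVec e c →
  G * (B - lam • 1) = 1 - vecMulVec e c → (B - lam • 1) * G = 1 - vecMulVec e c →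
  1 ≤ nn H (vecMulVec e c) ∧ nn H (1 - vecMulVec e c) = nn H (vecMulVec e c) + 1 ∧
  2 * (nn H (vecMulVec e c) * (nn H (vecMulVec e c) - 1)) ≤
    nn H (adj H B * vecMulVec e c - vecMulVec e c * adj H B) * nn H G

/-! ### Calculus -/

/-- MX. Second derivative test. -/
def MX_stmt : Prop := ∀ (u : ℂ → ℝ) (z : ℂ), ContDiffAt ℝ 2 u z → IsLocalMax u z → lap u z ≤ 0

/-- LW. The operator `lap` is `∂̄∂`. -/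
def LW_stmt : Prop := ∀ (u : ℂ → ℝ) (z : ℂ), ContDiffAt ℝ 2 u z →
  ((lap u z : ℝ) : ℂ) = dzb (fun w => dz (fun v => ((u v : ℝ) : ℂ)) w) z

/-- LA. Linearity, and `lap (log N)`. -/
def LA_stmt : Prop := (∀ (u v : ℂ → ℝ) (z : ℂ) (a b : ℝ), ContDiffAt ℝ 2 u z → ContDiffAt ℝ 2 v z →
    lap (fun w => a * u w + b * v w) z = a * lap u z + b * lap v z) ∧
  (∀ (N : ℂ → ℝ) (z : ℂ), ContDiffAt ℝ 2 N z → 0 < N z →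
    lap (fun w => Real.log (N w)) z = lap N z / N z - ‖dz (fun w => ((N w : ℝ) : ℂ)) z‖ ^ 2 / N z ^ 2)

/-- RA. Radial functions: `lap g(|z-c|) = (g'' + g'/r)/4`; in particular `log |z-c|` is harmonic. Also `log ‖f‖` is harmonic for
holomorphic nonvanishing `f`. -/
def RA_stmt : Prop := (∀ (g : ℝ → ℝ) (c z : ℂ), z ≠ c → ContDiffAt ℝ 2 g ‖z - c‖ →
    ContDiffAt ℝ 2 (fun w => g ‖w - c‖) z ∧
    lap (fun w => g ‖w - c‖) z = (iteratedDeriv 2 g ‖z - c‖ + deriv g ‖z - c‖ / ‖z - c‖) / 4) ∧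
  (∀ (f : ℂ → ℂ) (z : ℂ), AnalyticAt ℂ f z → f z ≠ 0 → ContDiffAt ℝ 2 (fun w => Real.log ‖f w‖) z ∧
    lap (fun w => Real.log ‖f w‖) z = 0)

/-- WI. Weitzenböck identity for a holomorphic intertwiner `P A₁ = A₂ P` of two harmonic bundles:
`∂∂̄|P|² = |∂P + θ₂P - Pθ₁|² + W |P A₁* - A₂* P|²`, `θ = H⁻¹∂H` (direct computation), and Cauchy-Schwarz for
`∂|P|² = <∂P + θ₂P - Pθ₁, P>`. -/
def WI_stmt : Prop := ∀ (m n : ℕ) (Ω : Set ℂ) (W : ℂ → ℝ) (A₁ H₁ : ℂ → Matrix (Fin n) (Fin n) ℂ)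
  (A₂ H₂ : ℂ → Matrix (Fin m) (Fin m) ℂ) (P : ℂ → Matrix (Fin m) (Fin n) ℂ), IsOpen Ω → HM Ω A₁ → HM Ω A₂ → HM Ω P →
  LH n Ω A₁ W H₁ → LH m Ω A₂ W H₂ → (∀ z ∈ Ω, P z * A₁ z = A₂ z * P z) →
  ContDiffOn ℝ 2 (fun z => nn2 (H₁ z) (H₂ z) (P z)) Ω ∧ ∀ z ∈ Ω,
  0 ≤ nn2 (H₁ z) (H₂ z) (mdz P z + (H₂ z)⁻¹ * mdz H₂ z * P z - P z * ((H₁ z)⁻¹ * mdz H₁ z)) ∧
  0 ≤ nn2 (H₁ z) (H₂ z) (P z * adj (H₁ z) (A₁ z) - adj (H₂ z) (A₂ z) * P z) ∧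
  lap (fun w => nn2 (H₁ w) (H₂ w) (P w)) z =
    nn2 (H₁ z) (H₂ z) (mdz P z + (H₂ z)⁻¹ * mdz H₂ z * P z - P z * ((H₁ z)⁻¹ * mdz H₁ z)) +
      W z * nn2 (H₁ z) (H₂ z) (P z * adj (H₁ z) (A₁ z) - adj (H₂ z) (A₂ z) * P z) ∧
  ‖dz (fun w => ((nn2 (H₁ w) (H₂ w) (P w) : ℝ) : ℂ)) z‖ ^ 2 ≤ nn2 (H₁ z) (H₂ z) (P z) *
    nn2 (H₁ z) (H₂ z) (mdz P z + (H₂ z)⁻¹ * mdz H₂ z * P z - P z * ((H₁ z)⁻¹ * mdz H₁ z))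

/-- WL. `∂∂̄ log |P|² ≥ W |[A*,P]|²/|P|²` for `P` holomorphic commuting with `A` (WI, LA). -/
def WL_stmt : Prop := ∀ (n : ℕ) (Ω : Set ℂ) (W : ℂ → ℝ) (A H P : ℂ → Matrix (Fin n) (Fin n) ℂ), IsOpen Ω →
  HM Ω A → HM Ω P → LH n Ω A W H → (∀ z ∈ Ω, P z * A z = A z * P z) → (∀ z ∈ Ω, P z ≠ 0) →
  (∀ z ∈ Ω, 0 < nn (H z) (P z)) ∧ ContDiffOn ℝ 2 (fun z => nn (H z) (P z)) Ω ∧
  ∀ z ∈ Ω, W z * nn (H z) (adj (H z) (A z) * P z - P z * adj (H z) (A z)) / nn (H z) (P z) ≤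
    lap (fun w => Real.log (nn (H w) (P w))) z

/-! ### Scalar comparison lemmas -/

/-- AH. Ahlfors lemma: compare with `32/(1-|z-z₁|²)²` at the maximum of the quotient (MX, LA). -/
def AH_stmt : Prop := ∀ (f : ℂ → ℝ) (z₁ : ℂ) (Λ : ℝ), 0 ≤ Λ →
  (∀ z ∈ Metric.closedBall z₁ 1, ContDiffAt ℝ 2 f z ∧ 0 < f z) →
  (∀ z ∈ Metric.ball z₁ 1, 2 * Λ ≤ f z → f z / 16 ≤ lap (fun w => Real.log (f w)) z) → f z₁ ≤ max 32 (2 * Λ)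

/-- BD. Decay: compare with `U ((1+|z|²)/(1+R²))^σ`, whose `lap` is `≤ σ² (...)/(1+|z|²)`. -/
def BD_stmt : Prop := ∀ (u : ℂ → ℝ) (R U σ : ℝ), 0 < R → 0 ≤ U → 1 ≤ σ → ContinuousOn u (Metric.closedBall 0 R) →
  (∀ z ∈ Metric.ball (0 : ℂ) R, ContDiffAt ℝ 2 u z) → (∀ z ∈ Metric.closedBall (0 : ℂ) R, u z ≤ U) →
  (∀ z ∈ Metric.ball (0 : ℂ) R, 0 < u z → σ ^ 2 * u z / (1 + ‖z‖ ^ 2) ≤ lap u z) →
  u 0 ≤ U * (1 + R ^ 2) ^ (-σ)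

/-- The coefficient of `q`. -/
def qq (t : ℝ) (z : ℂ) : ℂ := (t : ℂ) ^ 2 * (1 - z ^ 2)

/-- Scalar Hitchin equation on `|z| < 3`: `lap L = W (|q|² e^{2L} - e^{-2L})`, with `|q| e^{2L} ≤ 1`. -/
structure SH (t : ℝ) (W L : ℂ → ℝ) : Prop where
  ht : 1 ≤ t
  hW : ∀ z ∈ Metric.ball (0 : ℂ) 3, 1 / 2 ≤ W z ∧ W z ≤ 2
  smooth : ContDiffOn ℝ 2 L (Metric.ball 0 3)
  eq : ∀ z ∈ Metric.ball (0 : ℂ) 3, lap L z = W z * (‖qq t z‖ ^ 2 * Real.exp (2 * L z) - Real.exp (-(2 * L z)))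
  le : ∀ z ∈ Metric.ball (0 : ℂ) 3, ‖qq t z‖ * Real.exp (2 * L z) ≤ 1

/-- VA. Stage A, `v = -log|q| - 2L ≥ 0`, `lap v = 4W|q| sinh v` off `±1`, `v ~ -log|z-1|` at `1`. Compare on
`0 < |z-1| < ρ = 1/(4t)` with `(log(ρ/r) + (r²/ρ²-1)/2)/2`. -/
def VA_stmt : Prop := ∀ (t : ℝ) (W L : ℂ → ℝ), SH t W L → ∀ z : ℂ, ‖z - 1‖ = 1 / (8 * t) →
  3 / 20 ≤ -Real.log ‖qq t z‖ - 2 * L z

/-- VB. Stage B: on `1/(8t) < |z-1| < 3/2` compare with `0.15 (e^{-k(r-r₀)} - e^{-k(3/2-r₀)})`, `k = 20 t`, `r₀ = 1/(8t)`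
(`lap ≥ (k²/8) ψ ≥ 4W|q| sinh ψ`, `|q| ≤ 5.25 t²`); value at `z = 0` is `≥ e^{-20t}`. -/
def VB_stmt : Prop := ∀ (t : ℝ) (W L : ℂ → ℝ), SH t W L →
  (∀ z : ℂ, ‖z - 1‖ = 1 / (8 * t) → 3 / 20 ≤ -Real.log ‖qq t z‖ - 2 * L z) →
  Real.exp (-(20 * t)) ≤ -Real.log ‖qq t 0‖ - 2 * L 0

/-! ### The family -/

/-- The coefficient of `s`. -/
def ss (t : ℝ) (z : ℂ) : ℂ := I * t * z / 3

/-- The Higgs field of the Hitchin section in symmetric form: `q₂ = 3s²+q`, `q₃ = -2s(s²-q)`. -/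
def AA (t : ℝ) (z : ℂ) : Matrix (Fin 3) (Fin 3) ℂ :=
  !![0, (3 * ss t z ^ 2 + qq t z) / 2, -2 * ss t z * (ss t z ^ 2 - qq t z);
     1, 0, (3 * ss t z ^ 2 + qq t z) / 2;
     0, 1, 0]

/-- Eigenvector of the eigenvalue `-2s`. -/
def ev (t : ℝ) (z : ℂ) : Fin 3 → ℂ := ![(5 * ss t z ^ 2 - qq t z) / 2, -2 * ss t z, 1]

/-- Left eigenvector. -/
def cv (t : ℝ) (z : ℂ) : Fin 3 → ℂ :=
  ![-(1 / (t : ℂ) ^ 2), (2 / (t : ℂ) ^ 2) * ss t z, -(1 / (t : ℂ) ^ 2) * ((5 * ss t z ^ 2 - qq t z) / 2)]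

/-- The projection on the eigenline of `-2s`. -/
def PP (t : ℝ) (z : ℂ) : Matrix (Fin 3) (Fin 3) ℂ := vecMulVec (ev t z) (cv t z)

/-- Inverse of `A + 2s` on the complementary space. -/
def GG (t : ℝ) (z : ℂ) : Matrix (Fin 3) (Fin 3) ℂ :=
  (1 / (t : ℂ) ^ 2) • ((AA t z - (-2 * ss t z) • (1 : Matrix (Fin 3) (Fin 3) ℂ)) - (6 * ss t z) • (1 - PP t z))

/-- FA. Algebra (`9 s² - q = -t²`). -/
def FA_stmt : Prop := ∀ (t : ℝ) (z : ℂ), t ≠ 0 → cv t z ⬝ᵥ ev t z = 1 ∧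
  AA t z * PP t z = (-2 * ss t z) • PP t z ∧ PP t z * AA t z = (-2 * ss t z) • PP t z ∧
  GG t z * (AA t z - (-2 * ss t z) • 1) = 1 - PP t z ∧ (AA t z - (-2 * ss t z) • 1) * GG t z = 1 - PP t z ∧
  PP t z = (-(1 / (t : ℂ) ^ 2)) • ((AA t z - ss t z • 1) * (AA t z - ss t z • 1) - qq t z • 1) ∧
  trace (AA t z) = 0 ∧ HM Set.univ (AA t) ∧ HM Set.univ (PP t)

/-- FE. Eigenvalues `s ± r`, `-2s`, `r² = q`. -/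
def FE_stmt : Prop := ∀ (t : ℝ) (z : ℂ), ∃ l : Fin 3 → ℂ,
  (AA t z).charpoly = ∏ i, (Polynomial.X - Polynomial.C (l i)) ∧ ∑ i, ‖l i‖ ^ 2 ≤ 3 * t ^ 2 * (1 + ‖z‖ ^ 2)

/-- FB. A priori bound of `|A|²` (WL with `P = A`, M1, FE, AH). -/
def FB_stmt : Prop := ∀ (t R : ℝ) (W : ℂ → ℝ) (H : ℂ → Matrix (Fin 3) (Fin 3) ℂ), 1 ≤ t →
  (∀ z ∈ Metric.ball (0 : ℂ) (R + 2), 1 / 2 ≤ W z ∧ W z ≤ 2) → LH 3 (Metric.ball 0 (R + 2)) (AA t) W H →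
  ∀ z : ℂ, ‖z‖ ≤ R → nn (H z) (AA t z) ≤ 50 * t ^ 2 * (1 + ‖z‖ ^ 2)

/-- FP. Bounds of `|Π|²` and `|G|²` from the bound of `|A|²` (MN, FA, M2: `|1-Π|² = m + 1`, `m ≥ 1`). -/
def FP_stmt : Prop := ∀ (t : ℝ) (z : ℂ) (H : Matrix (Fin 3) (Fin 3) ℂ), 1 ≤ t → H.PosDef →
  nn H (AA t z) ≤ 50 * t ^ 2 * (1 + ‖z‖ ^ 2) →
  nn H (PP t z) ≤ (53 * (1 + ‖z‖ ^ 2)) ^ 2 ∧
  nn H (GG t z) ≤ 60 / t ^ 2 * (1 + ‖z‖ ^ 2) * (nn H (PP t z) + 1)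

/-- `U = 2 log(53(1+R²))`. -/
def Uc (R : ℝ) : ℝ := 2 * Real.log (53 * (1 + R ^ 2))

/-- `μ`. -/
def muc (R : ℝ) : ℝ := 1 / Real.sqrt (60 * (2 + Uc R))

/-- FD. Differential inequality for `u = log |Π|²` (WL, M2, FP; `(m-1)/(m+1) ≥ u/(2+u)`). -/
def FD_stmt : Prop := ∀ (t R : ℝ) (W : ℂ → ℝ) (H : ℂ → Matrix (Fin 3) (Fin 3) ℂ), 1 ≤ t → 1 ≤ R →
  (∀ z ∈ Metric.ball (0 : ℂ) (R + 2), 1 / 2 ≤ W z ∧ W z ≤ 2) → LH 3 (Metric.ball 0 (R + 2)) (AA t) W H →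
  (∀ z : ℂ, ‖z‖ ≤ R → nn (H z) (AA t z) ≤ 50 * t ^ 2 * (1 + ‖z‖ ^ 2)) →
  ∀ z : ℂ, ‖z‖ ≤ R → 0 ≤ Real.log (nn (H z) (PP t z)) ∧ Real.log (nn (H z) (PP t z)) ≤ Uc R ∧
    (muc R * t) ^ 2 * Real.log (nn (H z) (PP t z)) / (1 + ‖z‖ ^ 2) ≤
      lap (fun w => Real.log (nn (H w) (PP t w))) z

/-- FU. The exponential decay (FB, FD, BD). -/
def FU_stmt : Prop := ∀ (t R : ℝ) (W : ℂ → ℝ) (H : ℂ → Matrix (Fin 3) (Fin 3) ℂ), 1 ≤ t → 1 ≤ R → 1 ≤ muc R * t →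
  (∀ z ∈ Metric.ball (0 : ℂ) (R + 2), 1 / 2 ≤ W z ∧ W z ≤ 2) → LH 3 (Metric.ball 0 (R + 2)) (AA t) W H →
  0 ≤ Real.log (nn (H 0) (PP t 0)) ∧ Real.log (nn (H 0) (PP t 0)) ≤ Uc R * (1 + R ^ 2) ^ (-(muc R * t))

/-- FC. Algebra at the centre. -/
def FC_stmt : Prop := ∀ (t h : ℝ), 1 ≤ t → 0 < h →
  nn (diagonal ![(h : ℂ), 1, ((1 / h : ℝ) : ℂ)]) (AA t 0) =
    2 * t ^ 2 * Real.sqrt (nn (diagonal ![(h : ℂ), 1, ((1 / h : ℝ) : ℂ)]) (PP t 0))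

/-- FR. Choice of the parameters: `μ(R) log(1+R²) → ∞` as `R → ∞`, then `t` large. -/
def FR_stmt : Prop := ∃ R t : ℝ, 1 ≤ R ∧ 1 ≤ t ∧ 1 ≤ muc R * t ∧
  Uc R * (1 + R ^ 2) ^ (-(muc R * t)) < Real.exp (-(40 * t)) / 2

/-- LOC. The local theorem (FR, FU, FC, VA, VB; `e^{u/2} ≤ 1 + u` for `0 ≤ u ≤ 1`, `cosh v ≥ 1 + v²/2`). -/
def LOC_stmt : Prop := ∃ R t : ℝ, 1 ≤ R ∧ 1 ≤ t ∧ ∀ (W : ℂ → ℝ) (H : ℂ → Matrix (Fin 3) (Fin 3) ℂ) (h : ℝ) (L : ℂ → ℝ),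
  (∀ z ∈ Metric.ball (0 : ℂ) (R + 2), 1 / 2 ≤ W z ∧ W z ≤ 2) → LH 3 (Metric.ball 0 (R + 2)) (AA t) W H →
  0 < h → H 0 = diagonal ![(h : ℂ), 1, ((1 / h : ℝ) : ℂ)] → SH t W L →
  nn (H 0) (AA t 0) < ‖qq t 0‖ ^ 2 * Real.exp (2 * L 0) + Real.exp (-(2 * L 0))

end

end Pool.Agent.DL
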