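import Pool.Agent.helper1.DL.BA
import Pool.Agent.helper1.DL.BX
import Pool.Agent.helper1.DL.GB
import Pool.Agent.helper1.DL.M1
import Pool.Agent.helper1.DL.MR
import Pool.Agent.helper11.DL.FA
import Pool.Agent.helper12.DL.VB
import Pool.Agent.helper16.DL.BD
import Pool.Agent.helper16.DL.BW
import Pool.Agent.helper17.DL.BF
import Pool.Agent.helper17.DL.FB
import Pool.Agent.helper20.DL.BY
import Pool.Agent.helper20.DL.FP
import Pool.Agent.helper21.DL.FIN
import Pool.Agent.helper27.DL.SX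
import Pool.Agent.helper38.DL.BP
import Pool.Agent.helper38.DL.HU
import Pool.Agent.helper43.DL.HA
import Pool.Agent.helper43.DL.LA
import Pool.Agent.helper43.DL.MX
import Pool.Agent.helper45.DL.EX
import Pool.Agent.helper45.DL.FD
import Pool.Agent.helper45.DL.MN
import Pool.Agent.helper46.DL.FR
import Pool.Agent.helper46.DL.GC
import Pool.Agent.helper46.DL.HS
import Pool.Agent.helper46.DL.LOC
import Pool.Agent.helper51.DL.FU
import Pool.Agent.helper52.DL.HH
import Pool.Agent.helper54.DL.GA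
import Pool.Agent.helper54.DL.UN
import Pool.Agent.helper58.DL.UP
import Pool.Agent.helper60.DL.VA
import Pool.Agent.helper61.DL.HC
import Pool.Agent.helper61.DL.RA
import Pool.Agent.helper63.DL.BS
import Pool.Agent.helper63.DL.HL
import Pool.Agent.helper64.DL.MT
import Pool.Agent.helper65.DL.SM
import Pool.Agent.helper70.DL.FE
import Pool.Agent.helper71.DL.AH
import Pool.Agent.helper71.DL.WL
import Pool.Agent.helper78.DL.FC
import Pool.Agent.helper78.DL.HT
import Pool.Agent.helper78.DL.ND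
import Pool.Agent.helper89.DL.WI
import Pool.Agent.helper91.DL.BG
import Pool.Agent.helper92.DL.HD
import Pool.Agent.helper97.DL.BN
import Pool.Agent.helper97.DL.BZ
import Pool.Agent.helper97.DL.LW
import Pool.Agent.helper98.DL.GE
import Pool.Agent.helper98.DL.M2

/-! # Project dl (MP_4caea3_gt): assembly of parts L and G -/

namespace Pool.Agent.DL

open Matrix Complex
open scoped ComplexOrder Manifold ContDiff

theorem ASM_MR : MR_stmt := MR
theorem ASM_MT : MT_stmt := MT_holds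
theorem ASM_MN : MN_stmt := MN MR
theorem ASM_M1 : M1_stmt := M1 MR MT_holds
theorem ASM_M2 : M2_stmt := M2 ASM_MN
theorem ASM_WI : WI_stmt := WI LW
theorem ASM_WL : WL_stmt := WL ASM_MN ASM_WI LA
theorem ASM_AH : AH_stmt := AH MX LA
theorem ASM_BD : BD_stmt := BD MX LA
theorem ASM_VA : VA_stmt := VA MX LA RA
theorem ASM_VB : VB_stmt := VB MX LA RA
theorem ASM_FB : FB_stmt := FB ASM_WL ASM_M1 FE ASM_AH FA
theorem ASM_FP : FP_stmt := FP ASM_MN ASM_M2 FA
theorem ASM_FD : FD_stmt := FD ASM_WL ASM_M2 ASM_FP FA ASM_MN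
theorem ASM_FU : FU_stmt := FU ASM_FB ASM_FD ASM_BD ASM_WL FA
theorem ASM_LOC : LOC_stmt := LOC FR ASM_FU FC ASM_VA ASM_VB
theorem ASM_SM : SM_stmt := SM MX LA RA
theorem ASM_SX : SX_stmt := SX ASM_SM
theorem ASM_UN : UN_stmt := UN ASM_WI MR ASM_SX
theorem ASM_UP : UP_stmt := UP ASM_WI ASM_SX ASM_MN
theorem ASM_HH : HH_stmt := HH GA
theorem ASM_HT : HT_stmt := HT GA GE
theorem ASM_HD : HD_stmt := HD GE
theorem ASM_HS : HS_stmt := HS GC GE EX
theorem ASM_ND : ND_stmt := ND HC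
theorem ASM_HU : HU_stmt := HU ASM_UN ASM_ND ASM_HH EX
theorem ASM_HL : HL_stmt := HL GC EX
theorem ASM_BA : BA_stmt := BA GA EX
theorem ASM_BS : BS_stmt := BS EX
theorem ASM_BP : BP_stmt := BP ASM_BA ASM_BS
theorem ASM_BF : BF_stmt := BF EX
theorem ASM_BN : BN_stmt := BN EX
theorem ASM_BG : BG_stmt := BG EX
theorem ASM_BX : BX_stmt := BX ASM_UP ASM_BA EX ASM_MN
theorem ASM_BY : BY_stmt := BY LW ASM_SX
theorem ASM_BZ : BZ_stmt := BZ GE ASM_UN ASM_ND ASM_BA
theorem ASM_BW : BW_stmt := BW GC MX LA LW RA EX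
theorem ASM_FIN : FIN_stmt := FIN ASM_LOC ASM_HT ASM_HD ASM_HS ASM_HU HA ASM_HL EX ASM_BX ASM_BY ASM_BZ ASM_BW

theorem ASM_main (hXX : XX_stmt) : MAIN_stmt := by
  obtain ⟨X, tX, cX, hT, D, hD⟩ := hXX
  obtain ⟨a, t, ha, ht, hfin⟩ := ASM_FIN X D hT hD
  have ha0 : 0 < a := by linarith
  have ha2 : 2 < a := by linarith
  have ht0 : 0 < t := by linarith
  obtain ⟨hcov, -, -, -, -, hq2, hq3, -⟩ := EX X D hD a t ha0 ht0
  obtain ⟨hBV, hBS, -⟩ := ASM_BA X D hD a t ha0 ht0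
  obtain ⟨hHV, hHS, -⟩ := ASM_HH X (cov D a) (q2F D a t) (q3F D a t) hcov hq2 hq3
  refine ⟨X, tX, cX, ASM_BG X D hT hD, cov D a, q2F D a t, q3F D a t, BB D a t, hcov, hq2, hq3, hHV, hHS, hBV, hBS,
    ASM_BP X D hD a t ha2 ht0, ASM_BF X D hD a t ha0 ht0, ASM_BN X D hD a t ha0 ht0, D.x0, ?_⟩
  intro ρ hρ H H' hH hH' i k hi hk
  have hn1 : D.x0 ∉ D.U1 := by
    intro h
    have := hD.mul D.x0 ⟨hD.x0mem, h⟩
    rw [hD.x0z, zero_mul] at this
    exact zero_ne_one this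
  have hk' : k = false := by
    cases k
    · rfl
    · exact absurd hk hn1
  have hi' : i = false := by
    cases i
    · rfl
    · exact absurd hi hn1
  subst hk' hi'
  have h1 := hfin H H' hH hH'
  have hpos : 0 < ρ (chartAt ℂ D.x0) D.x0 := hρ.1 _ (chart_mem_atlas ℂ D.x0) D.x0 (mem_chart_source ℂ D.x0)
  have hη : (cov D a).η false (chartAt ℂ D.x0) D.x0 ≠ 0 := hcov.2.2.2 false D.x0 hD.x0mem
  have hη2 : 0 < ‖(cov D a).η false (chartAt ℂ D.x0) D.x0‖ ^ 2 := by positivity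
  unfold energyAt
  apply div_lt_div_of_pos_right _ hpos
  exact mul_lt_mul_of_pos_left h1 (by positivity)

end Pool.Agent.DL
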