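import Pool.Agent.helper67.DL.SpecL

/-! # Project dl (MP_4caea3_gt): Higgs bundles on closed Riemann surfaces

`X` is a complex manifold of dimension one (charts in `ℂ`).  A section of `K^m` is given by its coefficient functions in all the
charts of the atlas.  A vector bundle is given by a holomorphic cocycle on an open cover; on each open set `U i` of the cover a
nowhere vanishing holomorphic `1`-form `η i` is fixed and the Higgs field is `A i ⊗ η i`.  All definitions are given as raw data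
together with a predicate `Valid`. -/

namespace Pool.Agent.DL

open Matrix Complex
open scoped ComplexOrder Manifold ContDiff

noncomputable section

variable (X : Type) [TopologicalSpace X] [ChartedSpace ℂ X]

/-- Coefficient functions, one for each chart. -/
abbrev Fam : Type := OpenPartialHomeomorph X ℂ → X → ℂ

variable {X}

/-- `f` is holomorphic on the open set `U`. -/
def HoloOn (f : X → ℂ) (U : Set X) : Prop :=
  ∀ e ∈ atlas ℂ X, DifferentiableOn ℂ (fun z => f (e.symm z)) (e.target ∩ e.symm ⁻¹' U)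

/-- `q` is a holomorphic section of `K^m` over the open set `U`: `q e (de)^m = q e' (de')^m`. -/
def IsDif (U : Set X) (m : ℕ) (q : Fam X) : Prop :=
  (∀ e ∈ atlas ℂ X, DifferentiableOn ℂ (fun z => q e (e.symm z)) (e.target ∩ e.symm ⁻¹' U)) ∧
  ∀ e ∈ atlas ℂ X, ∀ e' ∈ atlas ℂ X, ∀ x ∈ U, x ∈ e.source → x ∈ e'.source →
    q e x = q e' x * deriv (fun z => e' (e.symm z)) (e x) ^ m

/-- The value of a quotient `q / η^m` of sections of `K^m` at a point. -/
def quo (q η : Fam X) (m : ℕ) (x : X) : ℂ := q (chartAt ℂ x) x / η (chartAt ℂ x) x ^ m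

variable (X)

/-- An open cover with a `1`-form on each member. -/
structure Cov where
  /-- the index set -/
  ι : Type
  /-- the open sets -/
  U : ι → Set X
  /-- the forms -/
  η : ι → Fam X

variable {X}

/-- The sets are open, they cover `X` and the forms are holomorphic and nowhere zero. -/
def Cov.Valid (C : Cov X) : Prop :=
  (∀ i, IsOpen (C.U i)) ∧ (∀ x, ∃ i, x ∈ C.U i) ∧ (∀ i, IsDif (C.U i) 1 (C.η i)) ∧
  ∀ i, ∀ x ∈ C.U i, C.η i (chartAt ℂ x) x ≠ 0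

/-- The function `η j / η i`, the transition function of the canonical bundle `K` (frames `η i`). -/
def Cov.rat (C : Cov X) (i j : C.ι) (x : X) : ℂ := quo (C.η j) (C.η i) 1 x

variable (X)

/-- Raw data of a Higgs bundle of rank `n`: a cover, a cocycle, the Higgs field `A i ⊗ η i`. -/
structure Higgs (n : ℕ) where
  /-- the cover -/
  C : Cov X
  /-- the cocycle: `v_i = g i j v_j` -/
  g : C.ι → C.ι → X → Matrix (Fin n) (Fin n) ℂ
  /-- the Higgs field in the frames -/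
  A : C.ι → X → Matrix (Fin n) (Fin n) ℂ

variable {X}

/-- The data define a holomorphic Higgs bundle. -/
structure Higgs.Valid {n : ℕ} (B : Higgs X n) : Prop where
  cov : B.C.Valid
  g_holo : ∀ i j a b, HoloOn (fun x => B.g i j x a b) (B.C.U i ∩ B.C.U j)
  g_self : ∀ i, ∀ x ∈ B.C.U i, B.g i i x = 1
  g_mul : ∀ i j k, ∀ x ∈ B.C.U i ∩ B.C.U j ∩ B.C.U k, B.g i j x * B.g j k x = B.g i k x
  A_holo : ∀ i a b, HoloOn (fun x => B.A i x a b) (B.C.U i)
  A_trans : ∀ i j, ∀ x ∈ B.C.U i ∩ B.C.U j, B.A i x * B.g i j x = B.C.rat i j x • (B.g i j x * B.A j x)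

/-- `SL(n, ℂ)`-Higgs bundle: the cocycle has determinant one, the Higgs field has trace zero. -/
def Higgs.IsSL {n : ℕ} (B : Higgs X n) : Prop :=
  (∀ i j, ∀ x ∈ B.C.U i ∩ B.C.U j, (B.g i j x).det = 1) ∧ ∀ i, ∀ x ∈ B.C.U i, trace (B.A i x) = 0

/-- `H` is a hermitian metric of class `C²` on the bundle satisfying `F_H + [φ, φ^*] = 0`. -/
structure Harm {n : ℕ} (B : Higgs X n) (H : B.C.ι → X → Matrix (Fin n) (Fin n) ℂ) : Prop where
  glue : ∀ i j, ∀ x ∈ B.C.U i ∩ B.C.U j, H j x = (B.g i j x)ᴴ * H i x * B.g i j x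
  loc : ∀ i, ∀ e ∈ atlas ℂ X, LH n (e.target ∩ e.symm ⁻¹' B.C.U i) (fun z => B.A i (e.symm z))
    (fun z => ‖B.C.η i e (e.symm z)‖ ^ 2) (fun z => H i (e.symm z))

/-- A harmonic metric of an `SL(n, ℂ)`-Higgs bundle (it has determinant one). -/
def SLHarm {n : ℕ} (B : Higgs X n) (H : B.C.ι → X → Matrix (Fin n) (Fin n) ℂ) : Prop :=
  Harm B H ∧ ∀ i, ∀ x ∈ B.C.U i, (H i x).det = 1

/-- A conformal riemannian metric `ρ e |de|²`. -/
def IsConf (ρ : OpenPartialHomeomorph X ℂ → X → ℝ) : Prop :=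
  (∀ e ∈ atlas ℂ X, ∀ x ∈ e.source, 0 < ρ e x) ∧
  (∀ e ∈ atlas ℂ X, ContDiffOn ℝ ∞ (fun z => ρ e (e.symm z)) e.target) ∧
  ∀ e ∈ atlas ℂ X, ∀ e' ∈ atlas ℂ X, ∀ x, x ∈ e.source → x ∈ e'.source →
    ρ e x = ρ e' x * ‖deriv (fun z => e' (e.symm z)) (e x)‖ ^ 2

/-- The energy density `|df|²` at `x` of the harmonic map `f` to `SL(n,ℂ)/SU(n)` (metric `tr (h⁻¹dh)²`) defined by the harmonic
metric `H`: `df` corresponds to `2(φ + φ^*)`, hence `|df|² = 16 tr(φ φ^*)/ρ`. (`i` is any index with `x ∈ U i`.) -/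
def energyAt {n : ℕ} (ρ : OpenPartialHomeomorph X ℂ → X → ℝ) (B : Higgs X n)
    (H : B.C.ι → X → Matrix (Fin n) (Fin n) ℂ) (i : B.C.ι) (x : X) : ℝ :=
  16 * ‖B.C.η i (chartAt ℂ x) x‖ ^ 2 * nn (H i x) (B.A i x) / ρ (chartAt ℂ x) x

/-- Morphism of Higgs bundles `F → B`: `v_i = G i k w_k`. -/
structure IsMor {m n : ℕ} (F : Higgs X m) (B : Higgs X n)
    (G : B.C.ι → F.C.ι → X → Matrix (Fin n) (Fin m) ℂ) : Prop where
  holo : ∀ i k a b, HoloOn (fun x => G i k x a b) (B.C.U i ∩ F.C.U k)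
  glue : ∀ i j k l, ∀ x ∈ B.C.U i ∩ B.C.U j ∩ (F.C.U k ∩ F.C.U l), B.g i j x * G j l x = G i k x * F.g k l x
  comm : ∀ i k, ∀ x ∈ B.C.U i ∩ F.C.U k,
    B.A i x * G i k x = quo (F.C.η k) (B.C.η i) 1 x • (G i k x * F.A k x)

/-- Isomorphic Higgs bundles. -/
def IsoHiggs {n : ℕ} (B B' : Higgs X n) : Prop := ∃ G, IsMor B' B G ∧
  ∀ i k, ∀ x ∈ B.C.U i ∩ B'.C.U k, IsUnit (G i k x).det

/-- `B` and `B'` lie in the same fibre of the Hitchin fibration: the Higgs fields have the same characteristic polynomial. -/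
def SameFibre {n : ℕ} (B B' : Higgs X n) : Prop := ∀ i k, ∀ x ∈ B.C.U i ∩ B'.C.U k,
  (B.A i x).charpoly = (quo (B'.C.η k) (B.C.η i) 1 x • B'.A k x).charpoly

/-- The degree of the bundle, computed by a meromorphic section of the determinant. -/
def HasDegree {n : ℕ} (B : Higgs X n) (d : ℤ) : Prop := ∃ (s : B.C.ι → X → ℂ) (κ : X → B.C.ι),
  (∀ x, x ∈ B.C.U (κ x)) ∧
  (∀ i, ∀ e ∈ atlas ℂ X, ∀ z ∈ e.target ∩ e.symm ⁻¹' B.C.U i,
    MeromorphicAt (fun w => s i (e.symm w)) z ∧ meromorphicOrderAt (fun w => s i (e.symm w)) z ≠ ⊤) ∧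
  (∀ i j, ∀ x ∈ B.C.U i ∩ B.C.U j, s i x = (B.g i j x).det * s j x) ∧
  d = ∑ᶠ x, (meromorphicOrderAt (fun w => s (κ x) ((chartAt ℂ x).symm w)) (chartAt ℂ x x)).untop₀

/-- Stable Higgs bundle: every proper Higgs subbundle has smaller slope. -/
def Stable {n : ℕ} (B : Higgs X n) : Prop := 0 < n ∧ ∀ m : ℕ, 0 < m → m < n → ∀ F : Higgs X m, F.Valid →
  ∀ G, IsMor F B G → (∀ i k, ∀ x ∈ B.C.U i ∩ F.C.U k, Function.Injective (G i k x).mulVec) →
  ∀ d d' : ℤ, HasDegree F d → HasDegree B d' → d * n < d' * m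

/-- Polystable Higgs bundle of degree zero: direct sum of stable Higgs bundles of degree zero. -/
def Polystable {n : ℕ} (B : Higgs X n) : Prop := ∃ (k : ℕ) (r : Fin k → ℕ) (F : ∀ l, Higgs X (r l))
  (G : ∀ l, B.C.ι → (F l).C.ι → X → Matrix (Fin n) (Fin (r l)) ℂ),
  (∀ l, (F l).Valid ∧ Stable (F l) ∧ HasDegree (F l) 0 ∧ IsMor (F l) B (G l)) ∧
  ∀ x, ∀ i, x ∈ B.C.U i → ∀ κ : ∀ l, (F l).C.ι, (∀ l, x ∈ (F l).C.U (κ l)) →
    Function.Bijective (fun v : ∀ l, Fin (r l) → ℂ => ∑ l, (G l i (κ l) x).mulVec (v l))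

/-- The point of the Hitchin section over `(q₂, q₃)`: `E = K ⊕ O ⊕ K⁻¹` (frames `η`, `1`, `η⁻¹`), the Higgs field has `1` on the
subdiagonal and `q₃, q₂, 0` in the last column. -/
def hitchin3 (C : Cov X) (q₂ q₃ : Fam X) : Higgs X 3 where
  C := C
  g i j x := diagonal ![C.rat i j x, 1, C.rat j i x]
  A i x := !![0, 0, quo q₃ (C.η i) 3 x; 1, 0, quo q₂ (C.η i) 2 x; 0, 1, 0]

variable (X)

/-- Closed Riemann surface of genus at least two (two linearly independent holomorphic `1`-forms). -/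
structure ClosedRS : Prop where
  man : IsManifold 𝓘(ℂ) ω X
  comp : CompactSpace X
  haus : T2Space X
  conn : ConnectedSpace X
  genus : ∃ w₁ w₂ : Fam X, IsDif (Set.univ : Set X) 1 w₁ ∧ IsDif (Set.univ : Set X) 1 w₂ ∧ ∀ a b : ℂ,
    (∀ x, a * w₁ (chartAt ℂ x) x + b * w₂ (chartAt ℂ x) x = 0) → a = 0 ∧ b = 0

variable {X}

/-- The main theorem: the energy density of the Hitchin section is not maximal in its Hitchin fibre, for `n = 3`. -/
def MAIN_stmt : Prop := ∃ (X : Type) (_ : TopologicalSpace X) (_ : ChartedSpace ℂ X), ClosedRS X ∧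
  ∃ (C : Cov X) (q₂ q₃ : Fam X) (B : Higgs X 3), C.Valid ∧ IsDif Set.univ 2 q₂ ∧ IsDif Set.univ 3 q₃ ∧
  (hitchin3 C q₂ q₃).Valid ∧ (hitchin3 C q₂ q₃).IsSL ∧
  B.Valid ∧ B.IsSL ∧ Polystable B ∧ SameFibre B (hitchin3 C q₂ q₃) ∧ ¬ IsoHiggs B (hitchin3 C q₂ q₃) ∧
  ∃ x : X, ∀ ρ, IsConf ρ → ∀ H H', SLHarm B H → SLHarm (hitchin3 C q₂ q₃) H' →
    ∀ i k, x ∈ B.C.U i → x ∈ C.U k → energyAt ρ (hitchin3 C q₂ q₃) H' k x < energyAt ρ B H i x

end

end Pool.Agent.DL
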