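import Pool.Agent.helper67.DL.SpecX

namespace Pool.Agent.DL

open Matrix Complex
open scoped ComplexOrder Manifold ContDiff

theorem X01_coc : Filter.coclosedCompact ℂ = Bornology.cobounded ℂ := by
  rw [Filter.coclosedCompact_eq_cocompact, Metric.cobounded_eq_cocompact]

theorem X01 : X01_stmt := by
  refine ⟨?_, ?_, ?_, ?_, ?_, ?_, ?_⟩
  · intro p hp
    apply ContinuousAt.continuousWithinAt
    induction p using OnePoint.rec with
    | infty => exact absurd rfl hp
    | coe z =>
      rw [OnePoint.continuousAt_coe]
      exact continuousAt_id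
  · intro p hp
    apply ContinuousAt.continuousWithinAt
    induction p using OnePoint.rec with
    | infty =>
      rw [OnePoint.continuousAt_infty', X01_coc]
      exact Filter.tendsto_inv₀_cobounded
    | coe z =>
      rw [OnePoint.continuousAt_coe]
      have hz : z ≠ 0 := fun h => hp (by rw [h]; rfl)
      exact continuousAt_inv₀ hz
  · rw [continuous_iff_continuousAt]
    intro z
    by_cases hz : z = 0
    · subst hz
      rw [continuousAt_iff_punctured_nhds]
      have h1 : ic 0 = OnePoint.infty := by simp [ic]
      rw [h1]
      have h2 : Filter.Tendsto (fun z : ℂ => (OnePoint.some z⁻¹ : P1)) (nhdsWithin 0 {0}ᶜ) (nhds OnePoint.infty) := by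
        have h3 := (Filter.tendsto_inv₀_nhdsNE_zero (α := ℂ))
        rw [← X01_coc] at h3
        exact (OnePoint.tendsto_coe_infty).comp h3
      refine h2.congr' ?_
      filter_upwards [self_mem_nhdsWithin] with w hw
      have hw' : w ≠ 0 := hw
      simp [ic, hw']
    · have h2 : ContinuousAt (fun z : ℂ => (OnePoint.some z⁻¹ : P1)) z :=
        (OnePoint.continuous_coe.continuousAt).comp (continuousAt_inv₀ hz)
      refine h2.congr ?_
      filter_upwards [isOpen_ne.mem_nhds hz] with w hw
      have hw' : w ≠ 0 := hw
      simp [ic, hw']
  · exact OnePoint.continuous_map continuous_neg (Homeomorph.neg ℂ).map_coclosedCompact.le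
  · intro z
    refine ⟨rfl, rfl, ?_, ?_⟩
    · by_cases hz : z = 0
      · simp [ic, hz, iv]
      · simp [ic, hz, iv]
    · by_cases hz : z = 0
      · simp [ic, hz, fv]
      · simp [ic, hz, fv]
  · intro p hp
    induction p using OnePoint.rec with
    | infty => simp [ic, iv]
    | coe z =>
      have hz : z ≠ 0 := fun h => hp (by rw [h])
      simp [ic, iv, hz]
  · intro p hp
    induction p using OnePoint.rec with
    | infty => exact absurd rfl hp
    | coe z => rfl

end Pool.Agent.DL
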