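import Pool.Agent.helper67.DL.ASM
import Pool.Agent.helper67.DL.X01
import Pool.Agent.helper11.DL.X02
import Pool.Agent.helper82.DL.X03
import Pool.Agent.helper97.DL.X04
import Pool.Agent.helper11.DL.X05
import Pool.Agent.helper39.DL.X06
import Pool.Agent.helper91.DL.X07
import Pool.Agent.helper27.DL.X08
import Pool.Agent.helper7.DL.X09
import Pool.Agent.helper82.DL.X10
import Pool.Agent.helper33.DL.X12
import Pool.Agent.helper82.DL.X13
import Pool.Agent.helper52.DL.X15
import Pool.Agent.helper31.DL.X16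
import Pool.Agent.helper52.DL.X17
import Pool.Agent.helper7.DL.X18
import Pool.Agent.helper7.DL.X19
import Pool.Agent.helper31.DL.X20
import Pool.Agent.helper33.DL.X21
import Pool.Agent.helper33.DL.X22
import Pool.Agent.helper82.DL.X23

/-! # Project dl (MP_4caea3_gt): the main theorem -/

namespace Pool.Agent.DL

theorem FINAL_X12 : X12_stmt := X12 X06 X10 X11
theorem FINAL_X09 : X09_stmt := X09 (X07 X01 X02) (X08 X01 X02)

theorem FINAL_XX : XX_stmt :=
  X23 (X03 X01) (X04 X01 X02) (X05 X01 X02) X06 FINAL_X09 FINAL_X12 (X15 X13 X14) (X16 X13 X14) X17 X18 (X19 X01)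
    (X20 (X19 X01)) X21 (X22 X02 X10)

theorem FINAL_main : MAIN_stmt := ASM_main FINAL_XX

end Pool.Agent.DL
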