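import Pool.Agent.helper67.DL.SpecG

/-! # Project dl (MP_4caea3_gt), part X: the explicit surface `(1 + ζ⁴)(1 + Y²) = 2` in `P¹ × P¹`

`w = (1 + ζ⁴) Y` satisfies `w² = 1 - ζ⁸`. With `M u = (1 - u)/(1 + u)` (an involution, `M (1/u) = - M u`) the equation is
`Y² = M (ζ⁴)`, `ζ⁴ = M (Y²)`. -/

namespace Pool.Agent.DL

open Matrix Complex
open scoped ComplexOrder Manifold ContDiff

noncomputable section

/-- The Riemann sphere. -/
abbrev P1 : Type := OnePoint ℂ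

/-- Finite coordinate (`0` at infinity). -/
def fv (p : P1) : ℂ := OnePoint.elim p 0 id

/-- Inverse coordinate (`0` at infinity, junk value `0` at `0`). -/
def iv (p : P1) : ℂ := OnePoint.elim p 0 (fun z => z⁻¹)

/-- The point with inverse coordinate `z`. -/
def ic (z : ℂ) : P1 := if z = 0 then OnePoint.infty else OnePoint.some z⁻¹

/-- `z ↦ -z` on the sphere. -/
def ngP (p : P1) : P1 := OnePoint.map (fun z => -z) p

/-- The equation of the surface. -/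
def RelX (p : P1 × P1) : Prop :=
  (∃ z y : ℂ, p = (OnePoint.some z, OnePoint.some y) ∧ (1 + z ^ 4) * (1 + y ^ 2) = 2) ∨
  (∃ y : ℂ, p = (OnePoint.infty, OnePoint.some y) ∧ 1 + y ^ 2 = 0) ∨
  ∃ z : ℂ, p = (OnePoint.some z, OnePoint.infty) ∧ 1 + z ^ 4 = 0

/-- The surface. -/
abbrev XT : Type := {p : P1 × P1 // RelX p}

/-- The coordinate functions `ζ`, `1/ζ`, `Y`, `1/Y`. -/
def fZ (p : XT) : ℂ := fv p.1.1
@[inherit_doc fZ] def fN (p : XT) : ℂ := iv p.1.1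
@[inherit_doc fZ] def fY (p : XT) : ℂ := fv p.1.2
@[inherit_doc fZ] def fV (p : XT) : ℂ := iv p.1.2

/-- `ζ ≠ ∞`, `ζ ≠ 0`, `Y ≠ ∞`, `Y ≠ 0`. -/
def uZ : Set XT := {p | p.1.1 ≠ OnePoint.infty}
@[inherit_doc uZ] def uN : Set XT := {p | p.1.1 ≠ OnePoint.some 0}
@[inherit_doc uZ] def uY : Set XT := {p | p.1.2 ≠ OnePoint.infty}
@[inherit_doc uZ] def uV : Set XT := {p | p.1.2 ≠ OnePoint.some 0}

/-- The Moebius involution. -/
def mm (u : ℂ) : ℂ := (1 - u) / (1 + u)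

/-- Principal square root and fourth root. -/
def r2 (w : ℂ) : ℂ := w ^ (((2 : ℕ) : ℂ)⁻¹)
@[inherit_doc r2] def r4 (w : ℂ) : ℂ := w ^ (((4 : ℕ) : ℂ)⁻¹)

/-- Charts `G c`, `c⁴ = 1`: source `{Y ≠ ∞, Re (Y/c) > 0}`, coordinate `ζ` if `c = ±1`, `1/ζ` if `c = ±i`;
inverse `x ↦ (ζ, c √(M (x⁴)))`. -/
def gS (c : ℂ) : Set XT := {p | p.1.2 ≠ OnePoint.infty ∧ 0 < (fv p.1.2 / c).re}
@[inherit_doc gS] def gT : Set ℂ := {x | 1 + x ^ 4 ≠ 0 ∧ mm (x ^ 4) ∈ slitPlane}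
@[inherit_doc gS] def gx (c : ℂ) (p : XT) : ℂ := if c ^ 2 = 1 then fZ p else fN p
@[inherit_doc gS] def gi (c x : ℂ) : P1 × P1 :=
  (if c ^ 2 = 1 then OnePoint.some x else ic x, OnePoint.some (c * r2 (mm (x ^ 4))))

/-- Charts `E d`, `d⁸ = 1`: source `{ζ ≠ ∞, |arg (ζ/d)| < π/4}`, coordinate `Y` if `d⁴ = 1`, `1/Y` if `d⁴ = -1`;
inverse `y ↦ (d (M (y²))^(1/4), Y)`. -/
def eS (d : ℂ) : Set XT := {p | p.1.1 ≠ OnePoint.infty ∧ |(fv p.1.1 / d).im| < (fv p.1.1 / d).re}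
@[inherit_doc eS] def eT : Set ℂ := {y | 1 + y ^ 2 ≠ 0 ∧ mm (y ^ 2) ∈ slitPlane}
@[inherit_doc eS] def ex (d : ℂ) (p : XT) : ℂ := if d ^ 4 = 1 then fY p else fV p
@[inherit_doc eS] def ei (d y : ℂ) : P1 × P1 :=
  (OnePoint.some (d * r4 (mm (y ^ 2))), if d ^ 4 = 1 then OnePoint.some y else ic y)

/-- Index set of the twelve charts. -/
abbrev Ix : Type := {c : ℂ // c ^ 4 = 1} ⊕ {d : ℂ // d ^ 8 = 1}

/-- The family `ch` of partial homeomorphisms is the family of the charts. -/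
def IsCh (ch : Ix → OpenPartialHomeomorph XT ℂ) : Prop :=
  (∀ c : {c : ℂ // c ^ 4 = 1}, (ch (Sum.inl c)).source = gS c ∧ (ch (Sum.inl c)).target = gT ∧
    (∀ p ∈ gS c, ch (Sum.inl c) p = gx c p) ∧ ∀ x ∈ gT, ((ch (Sum.inl c)).symm x).1 = gi c x) ∧
  ∀ d : {d : ℂ // d ^ 8 = 1}, (ch (Sum.inr d)).source = eS d ∧ (ch (Sum.inr d)).target = eT ∧
    (∀ p ∈ eS d, ch (Sum.inr d) p = ex d p) ∧ ∀ y ∈ eT, ((ch (Sum.inr d)).symm y).1 = ei d y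

/-- The charted space structure `cs` has exactly these charts. -/
def GoodX (cs : ChartedSpace ℂ XT) (ch : Ix → OpenPartialHomeomorph XT ℂ) : Prop :=
  IsCh ch ∧ cs.atlas = Set.range ch

/-- The four coordinate functions are holomorphic. -/
structure HolX [ChartedSpace ℂ XT] : Prop where
  man : IsManifold 𝓘(ℂ) ω XT
  oZ : IsOpen uZ
  oN : IsOpen uN
  oY : IsOpen uY
  oV : IsOpen uV
  hZ : HoloOn fZ uZ
  hN : HoloOn fN uN
  hY : HoloOn fY uY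
  hV : HoloOn fV uV

/-- The differential of a function. -/
def dd {X : Type} [TopologicalSpace X] (f : X → ℂ) : Fam X := fun e x => deriv (fun z => f (e.symm z)) (e x)

open Classical in
/-- `η0 = dζ/((1+ζ⁴)Y)`; at `Y = 0` it is `-dY/(2ζ³(1+Y²))`, at `Y = ∞` it is `dV/(2ζ³(1+V²))`. -/
def eta0 : Fam XT := fun e p =>
  if p.1.2 = OnePoint.infty then dd fV e p / (2 * fZ p ^ 3 * (1 + fV p ^ 2))
  else if p.1.2 = OnePoint.some 0 then -dd fY e p / (2 * fZ p ^ 3 * (1 + fY p ^ 2))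
  else dd fZ e p / ((1 + fZ p ^ 4) * fY p)

open Classical in
/-- `η1 = ζ² η0 = -dν/((1+ν⁴)Y)`. -/
def eta1 : Fam XT := fun e p =>
  if p.1.2 = OnePoint.infty then fN p * dd fV e p / (2 * (1 + fV p ^ 2))
  else if p.1.2 = OnePoint.some 0 then -(fN p * dd fY e p) / (2 * (1 + fY p ^ 2))
  else -dd fN e p / ((1 + fN p ^ 4) * fY p)

theorem ngP_rel (p : P1 × P1) (h : RelX p) : RelX (ngP p.1, p.2) := by
  rcases h with ⟨z, y, rfl, h⟩ | ⟨y, rfl, h⟩ | ⟨z, rfl, h⟩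
  · exact Or.inl ⟨-z, y, rfl, by rw [← h]; ring⟩
  · exact Or.inr (Or.inl ⟨y, rfl, h⟩)
  · exact Or.inr (Or.inr ⟨-z, rfl, by rw [← h]; ring⟩)

/-- The involution. -/
def tauX (p : XT) : XT := ⟨(ngP p.1.1, p.1.2), ngP_rel p.1 p.2⟩

/-- The fixed point `(0, 1)`. -/
def x0X : XT := ⟨(OnePoint.some 0, OnePoint.some 1), Or.inl ⟨0, 1, rfl, by norm_num⟩⟩

/-- The point `(∞, i)`. -/
def x1X : XT := ⟨(OnePoint.infty, OnePoint.some I), Or.inr (Or.inl ⟨I, rfl, by rw [I_sq]; norm_num⟩)⟩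

/-- The data of the surface. -/
def DX (ch : Ix → OpenPartialHomeomorph XT ℂ) [ChartedSpace ℂ XT] : CD XT where
  U0 := uZ
  U1 := uN
  ζ := fZ
  ν := fN
  η0 := eta0
  η1 := eta1
  τ := tauX
  x0 := x0X
  x1 := x1X
  e0 := ch (Sum.inl ⟨1, by norm_num⟩)

/-! ## Modules -/

/-- X01. The sphere. `fv` is continuous off `∞` (open embedding of `ℂ`), `iv` off `0` (at `∞`: `z⁻¹ → 0` along cocompact),
`ic` and `ngP` are continuous (`ic` at `0`: `z⁻¹ → ∞`, `Filter.tendsto_inv₀_nhdsNE_zero` or cobounded/cocompact). -/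
def X01_stmt : Prop := ContinuousOn fv {OnePoint.infty}ᶜ ∧ ContinuousOn iv {(OnePoint.some 0 : P1)}ᶜ ∧ Continuous ic ∧
  Continuous ngP ∧ (∀ z : ℂ, fv (OnePoint.some z) = z ∧ iv (OnePoint.some z) = z⁻¹ ∧ iv (ic z) = z ∧ fv (ic z) = z⁻¹) ∧
  (∀ p : P1, p ≠ OnePoint.some 0 → ic (iv p) = p) ∧ ∀ p : P1, p ≠ OnePoint.infty → OnePoint.some (fv p) = p

/-- X02. Roots (`Complex.cpow_nat_inv_pow`, `Complex.pow_cpow_nat_inv`, `Complex.arg`, `w.arg/2` in `(-π/2, π/2)`). -/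
def X02_stmt : Prop :=
  (∀ w ∈ slitPlane, r2 w ^ 2 = w ∧ 0 < (r2 w).re) ∧ (∀ v : ℂ, 0 < v.re → v ^ 2 ∈ slitPlane ∧ r2 (v ^ 2) = v) ∧
  (∀ w ∈ slitPlane, r4 w ^ 4 = w ∧ |(r4 w).im| < (r4 w).re) ∧
  (∀ v : ℂ, |v.im| < v.re → v ^ 4 ∈ slitPlane ∧ r4 (v ^ 4) = v) ∧
  DifferentiableOn ℂ r2 slitPlane ∧ DifferentiableOn ℂ r4 slitPlane

/-- X03. The set is closed: it is the equalizer of the continuous maps `p ↦ p.1 ^ 4` and `p ↦ M (p.2 ^ 2)` of the sphere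
(powers: `OnePoint.continuous_map`, the power tends to cocompact along cocompact; `M u = -1 + 2/(1+u)`, inversion is continuous
by X01 (`p ↦ ic (fv p)` with `∞ ↦ 0`)). Or directly: the complement is open at each of the points. -/
def X03_stmt : Prop := IsClosed {p : P1 × P1 | RelX p}

/-- X04. Existence of a chart `G c` (X01, X02). `M` is an involution off `-1`; on `gS c`, `c = ±1`: `ζ` is finite (`ζ = ∞` would
give `Y² = -1`), `(Y/c)² = Y² = M (ζ⁴)`; for `c = ±i`: `ζ ≠ 0` (`ζ = 0` would give `Y² = 1`), `(Y/c)² = -Y² = M (ν⁴)`, `ν = 1/ζ`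
(also at `ν = 0`). The values of the inverse map outside `gT` are irrelevant (`x0X`). -/
def X04_stmt : Prop := ∀ c : ℂ, c ^ 4 = 1 → ∃ e : OpenPartialHomeomorph XT ℂ, e.source = gS c ∧ e.target = gT ∧
    (∀ p ∈ gS c, e p = gx c p) ∧ ∀ x ∈ gT, (e.symm x).1 = gi c x

/-- X05. Existence of a chart `E d` (X01, X02). On `eS d`: `(ζ/d)⁴ = d⁴ ζ⁴` (`d⁸ = 1`, so `d⁻⁴ = d⁴ = ±1`). `d⁴ = 1`: `Y` is finite
(`Y = ∞` would give `ζ⁴ = -1`, `(ζ/d)⁴ = -1`, impossible in the sector), `ζ⁴ = M (Y²)`. `d⁴ = -1`: `Y ≠ 0`, `-ζ⁴ = M (V²)`, `V = 1/Y`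
(also at `V = 0`). -/
def X05_stmt : Prop := ∀ d : ℂ, d ^ 8 = 1 → ∃ e : OpenPartialHomeomorph XT ℂ, e.source = eS d ∧ e.target = eT ∧
    (∀ p ∈ eS d, e p = ex d p) ∧ ∀ y ∈ eT, (e.symm y).1 = ei d y

/-- X06. The charts cover: `Y ≠ 0, ∞`: some `c` in `{1, i, -1, -i}` has `Re (Y/c) > 0`. `Y = 0`: `ζ⁴ = 1`, take `d = ζ`. `Y = ∞`:
`ζ⁴ = -1`, take `d = ζ`. -/
def X06_stmt : Prop := ∀ p : XT, (∃ c : ℂ, c ^ 4 = 1 ∧ p ∈ gS c) ∨ ∃ d : ℂ, d ^ 8 = 1 ∧ p ∈ eS d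

/-- X07. The coordinate functions are holomorphic in the charts `G c` (X02 and `differentiability` of `M (x⁴)` where `1 + x⁴ ≠ 0`):
`ζ = x` or `x⁻¹` etc., `Y = c √(M (x⁴))`, `V = Y⁻¹`. -/
def X07_stmt : Prop := ∀ ch, IsCh ch → ∀ c, ∀ e, e = ch (Sum.inl c) →
  DifferentiableOn ℂ (fun z => fZ (e.symm z)) (e.target ∩ e.symm ⁻¹' uZ) ∧
  DifferentiableOn ℂ (fun z => fN (e.symm z)) (e.target ∩ e.symm ⁻¹' uN) ∧
  DifferentiableOn ℂ (fun z => fY (e.symm z)) (e.target ∩ e.symm ⁻¹' uY) ∧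
  DifferentiableOn ℂ (fun z => fV (e.symm z)) (e.target ∩ e.symm ⁻¹' uV)

/-- X08. The coordinate functions are holomorphic in the charts `E d`. -/
def X08_stmt : Prop := ∀ ch, IsCh ch → ∀ d, ∀ e, e = ch (Sum.inr d) →
  DifferentiableOn ℂ (fun z => fZ (e.symm z)) (e.target ∩ e.symm ⁻¹' uZ) ∧
  DifferentiableOn ℂ (fun z => fN (e.symm z)) (e.target ∩ e.symm ⁻¹' uN) ∧
  DifferentiableOn ℂ (fun z => fY (e.symm z)) (e.target ∩ e.symm ⁻¹' uY) ∧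
  DifferentiableOn ℂ (fun z => fV (e.symm z)) (e.target ∩ e.symm ⁻¹' uV)

/-- X09. Manifold structure: each chart is, on its source, one of the four functions, and its source lies in the domain of that
function (see X04, X05); so the transition maps are holomorphic by X07, X08 (`isManifold_of_contDiffOn`,
`DifferentiableOn.analyticOnNhd`, `AnalyticOnNhd.contDiffOn`). The open sets: X01. -/
def X09_stmt : Prop := ∀ (cs : ChartedSpace ℂ XT) ch, GoodX cs ch → HolX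

/-- X10. The targets are star-shaped about `0`, hence preconnected: `x ∈ gT` iff `x⁴` is not in `(-∞,-1] ∪ [1,∞)`: `M u` is in
`(-∞, 0]` iff `u = M s` with `s ≤ 0`, i.e. `u` is real with `|u| ≥ 1`. Same for `eT` with `y²`. -/
def X10_stmt : Prop := (∀ x, x ∈ gT ↔ ¬ ((x ^ 4).im = 0 ∧ 1 ≤ |(x ^ 4).re|)) ∧ (∀ y, y ∈ eT ↔ ¬ ((y ^ 2).im = 0 ∧ 1 ≤ |(y ^ 2).re|)) ∧
  IsPreconnected gT ∧ IsPreconnected eT ∧ (∀ x : ℂ, ‖x‖ < 1 → x ∈ gT) ∧ ∀ y : ℂ, ‖y‖ < 1 → y ∈ eT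

/-- X11. Every `G c` meets every `E d`: the point of `G c` with coordinate `x = d/2` (`c = ±1`, `ζ = d/2`) or `x = 1/(2d)`, i.e.
`ζ = 2 d` (`c = ±i`). -/
def X11_stmt : Prop := ∀ c d : ℂ, c ^ 4 = 1 → d ^ 8 = 1 → (gS c ∩ eS d).Nonempty

/-- X12. Connectedness (X06, X10, X11): the sources are images of the targets under the continuous inverse charts; every `G c`
meets `E 1`, every `E d` meets `G 1`. (Only the homeomorphisms `ch` are used.) -/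
def X12_stmt : Prop := ∀ ch, IsCh ch → ConnectedSpace XT

/-- X13. General: the differential of a holomorphic function is a holomorphic `1`-form (chain rule with the transition map). -/
def X13_stmt : Prop := ∀ (X : Type) [TopologicalSpace X] [ChartedSpace ℂ X], IsManifold 𝓘(ℂ) ω X →
  ∀ (U : Set X) (f : X → ℂ), IsOpen U → HoloOn f U → IsDif U 1 (dd f)

/-- X14. General: multiplication by a holomorphic function, and locality. -/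
def X14_stmt : Prop := ∀ (X : Type) [TopologicalSpace X] [ChartedSpace ℂ X],
  (∀ (U : Set X) (m : ℕ) (q : Fam X) (f : X → ℂ), IsOpen U → HoloOn f U → IsDif U m q → IsDif U m (fun e x => f x * q e x)) ∧
  (∀ (U V : Set X) (m : ℕ) (q : Fam X), V ⊆ U → IsDif U m q → IsDif V m q) ∧
  (∀ (U V : Set X) (f : X → ℂ), V ⊆ U → HoloOn f U → HoloOn f V) ∧
  (∀ (U : Set X) (f : X → ℂ), IsOpen U → HoloOn f U → (∀ x ∈ U, f x ≠ 0) → HoloOn (fun x => (f x)⁻¹) U) ∧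
  (∀ (U : Set X) (f g : X → ℂ), HoloOn f U → HoloOn g U → HoloOn (fun x => f x * g x) U ∧ HoloOn (fun x => f x + g x) U) ∧
  (∀ (U : Set X) (a : ℂ), HoloOn (fun _ => a) U) ∧
  ∀ (ι : Type) (U : ι → Set X) (m : ℕ) (q : Fam X) (q' : ι → Fam X), (∀ i, IsOpen (U i)) → (∀ i, IsDif (U i) m (q' i)) →
    (∀ i, ∀ e ∈ atlas ℂ X, ∀ x ∈ U i, x ∈ e.source → q e x = q' i e x) → IsDif (⋃ i, U i) m q

/-- X15. `η0` is a holomorphic form on `uZ`: it is `wA` on `{Y ≠ 0, ∞}`, `wB` on `{ζ ≠ 0, ∞, Y ≠ ∞}`, `wC` on `{ζ ≠ 0, ∞, Y ≠ 0}`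
(X13, X14), where on the overlaps the derivative of `(1+ζ⁴)(1+Y²) = 2`, i.e. `4ζ³(1+Y²)dζ + 2Y(1+ζ⁴)dY = 0`, and `V Y = 1`, `dV = -dY/Y²`,
are used. Here `ζ ≠ 0` if `Y` is `0` or `∞`; the denominators do not vanish: `1 + ζ⁴ ≠ 0` if `Y ≠ ∞`, `1 + Y² ≠ 0` if `ζ ≠ ∞`,
`(1+ζ⁴)(1+V²) = 2 V²`, so `1 + V² ≠ 0` if `ζ ≠ ∞`. -/
def X15_stmt : Prop := ∀ (_cs : ChartedSpace ℂ XT), HolX → IsDif uZ 1 eta0

/-- X16. `η1` is a holomorphic form on `uN`: `(1+ν⁴)(1+Y²) = 2ν⁴`, `4ν³(1+Y²)dν + 2Y(1+ν⁴)dY = 8ν³dν`, hence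
`2Y(1+ν⁴)dY = 4ν³(1-Y²)dν`; with `ν⁴ (1-Y²) = 1+Y²` one gets `ν dY/(2(1+Y²)) = dν/((1+ν⁴)Y)` where `ν ≠ 0`,
and the two local formulas agree where `Y ≠ 0, ∞` and `ζ ≠ ∞`. On `{Y ≠ 0, ∞}` use the third formula (`1+ν⁴ ≠ 0`, also at `ν = 0`),
on `{ζ ≠ 0, ∞}` the other two. -/
def X16_stmt : Prop := ∀ (_cs : ChartedSpace ℂ XT), HolX → IsDif uN 1 eta1

/-- X17. `η0 = ν² η1` (`dν = -ν² dζ`). -/
def X17_stmt : Prop := ∀ (_cs : ChartedSpace ℂ XT), HolX → ∀ e ∈ atlas ℂ XT, ∀ x ∈ uZ ∩ uN, x ∈ e.source →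
  eta0 e x = fN x ^ 2 * eta1 e x

/-- X18. The forms vanish nowhere: if `IsDif U 1 η`, `x ∈ U`, `η e x = 0` for one chart at `x`, then for all. `Y ≠ 0, ∞`: take `G c`, where
`ζ = x` or `x⁻¹` has nonzero derivative. `Y = 0`: `E d` with `d = ζ`, `d⁴ = 1`, `Y` is the coordinate. `Y = ∞`: `E d`, `d = ζ`,
`d⁴ = -1`, `V` is the coordinate. -/
def X18_stmt : Prop := ∀ (cs : ChartedSpace ℂ XT) ch, GoodX cs ch → IsDif uZ 1 eta0 → IsDif uN 1 eta1 →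
  (∀ x ∈ uZ, eta0 (chartAt ℂ x) x ≠ 0) ∧ ∀ x ∈ uN, eta1 (chartAt ℂ x) x ≠ 0

/-- X19. The involution (X01): `ζ ∘ τ = -ζ`, `Y ∘ τ = Y`. Holomorphy: each chart is one of the four functions on its source, which lies
in the domain of that function. -/
def X19_stmt : Prop := Continuous tauX ∧ (∀ x, fZ (tauX x) = -fZ x ∧ fN (tauX x) = -fN x ∧ fY (tauX x) = fY x ∧ fV (tauX x) = fV x) ∧
  (∀ x, (tauX x ∈ uZ ↔ x ∈ uZ) ∧ (tauX x ∈ uN ↔ x ∈ uN) ∧ (tauX x ∈ uY ↔ x ∈ uY) ∧ (tauX x ∈ uV ↔ x ∈ uV)) ∧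
  (∀ (cs : ChartedSpace ℂ XT) ch, GoodX cs ch → HolX → ∀ e ∈ atlas ℂ XT, ∀ e' ∈ atlas ℂ XT,
    DifferentiableOn ℂ (fun z => e' (tauX (e.symm z))) (e.target ∩ e.symm ⁻¹' (tauX ⁻¹' e'.source)))

/-- X20. Pull back of the forms: chain rule for `f ∘ e'.symm` and `e' ∘ τ ∘ e.symm` with `f` one of the four functions, and X19. -/
def X20_stmt : Prop := ∀ (_cs : ChartedSpace ℂ XT), HolX → (∀ e ∈ atlas ℂ XT, ∀ e' ∈ atlas ℂ XT,
    DifferentiableOn ℂ (fun z => e' (tauX (e.symm z))) (e.target ∩ e.symm ⁻¹' (tauX ⁻¹' e'.source))) →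
  (∀ e ∈ atlas ℂ XT, ∀ e' ∈ atlas ℂ XT, ∀ x ∈ uZ, x ∈ e.source → tauX x ∈ e'.source →
    eta0 e' (tauX x) * deriv (fun z => e' (tauX (e.symm z))) (e x) = -eta0 e x) ∧
  ∀ e ∈ atlas ℂ XT, ∀ e' ∈ atlas ℂ XT, ∀ x ∈ uN, x ∈ e.source → tauX x ∈ e'.source →
    eta1 e' (tauX x) * deriv (fun z => e' (tauX (e.symm z))) (e x) = -eta1 e x

/-- X21. Density: the complements are `{(∞, ±i)}` and `{(0, ±1)}`, the centres of the charts `G c`; use `x → 0`, `x ≠ 0` in the chart. -/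
def X21_stmt : Prop := ∀ ch, IsCh ch → Dense uZ ∧ Dense uN

/-- X22. The chart at `x0`: `e0.symm z = (z, √(M (z⁴)))`, `|η0|² = 1/|1 - z⁸|`. -/
def X22_stmt : Prop := ∀ ch, IsCh ch → ∀ e, e = ch (Sum.inl ⟨1, by norm_num⟩) → Metric.ball 0 (1 / 2) ⊆ e.target ∧
  (∀ z ∈ Metric.ball (0 : ℂ) (1 / 2), e.symm z ∈ uZ ∧ fZ (e.symm z) = z ∧
    1 / 2 ≤ ‖eta0 e (e.symm z)‖ ^ 2 ∧ ‖eta0 e (e.symm z)‖ ^ 2 ≤ 2) ∧ e.symm 0 = x0X

/-- X23. Assembly: the charts exist (X04, X05), the charted space is built from them and X06, `Top4` from X03, X09, X12, and all fields of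
`CD.Valid (DX ch)`. -/
def X23_stmt : Prop := XX_stmt

end

end Pool.Agent.DL
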