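import Pool.Agent.helper67.DL.SpecX

namespace Pool.Agent.DL

open Matrix Complex
open scoped ComplexOrder Manifold ContDiff

theorem X06_c (y : ℂ) (hy : y ≠ 0) : ∃ c : ℂ, c ^ 4 = 1 ∧ 0 < (y / c).re := by
  rcases lt_trichotomy y.re 0 with h | h | h
  · refine ⟨-1, by norm_num, ?_⟩
    rw [div_neg, div_one, neg_re]
    linarith
  · rcases lt_trichotomy y.im 0 with h' | h' | h'
    · refine ⟨-I, by rw [neg_pow, I_pow_four]; norm_num, ?_⟩
      rw [div_neg, neg_re, div_I, neg_re, neg_neg, mul_re, I_re, I_im]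
      linarith
    · exact absurd (Complex.ext h h') hy
    · refine ⟨I, I_pow_four, ?_⟩
      rw [div_I, neg_re, mul_re, I_re, I_im]
      linarith
  · refine ⟨1, by norm_num, ?_⟩
    rw [div_one]
    exact h

theorem X06 : X06_stmt := by
  intro p
  obtain ⟨⟨p1, p2⟩, hp⟩ := p
  rcases hp with ⟨z, y, hzy, h⟩ | ⟨y, hy, h⟩ | ⟨z, hz, h⟩
  · have e1 : p1 = OnePoint.some z := (Prod.mk.inj hzy).1
    have e2 : p2 = OnePoint.some y := (Prod.mk.inj hzy).2
    subst e1 e2
    by_cases hy : y = 0
    · right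
      subst hy
      have h4 : z ^ 4 = 1 := by
        have : (1 + z ^ 4) * (1 + 0 ^ 2) = 1 + z ^ 4 := by ring
        rw [this] at h
        linear_combination h
      have hz : z ≠ 0 := by
        intro h0
        rw [h0] at h4
        norm_num at h4
      refine ⟨z, by linear_combination (z ^ 4 + 1) * h4, ?_, ?_⟩
      · exact OnePoint.coe_ne_infty z
      · show |(z / z).im| < (z / z).re
        rw [div_self hz]
        simp
    · left
      obtain ⟨c, hc, hr⟩ := X06_c y hy
      exact ⟨c, hc, OnePoint.coe_ne_infty y, hr⟩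
  · have e1 : p1 = OnePoint.infty := (Prod.mk.inj hy).1
    have e2 : p2 = OnePoint.some y := (Prod.mk.inj hy).2
    subst e1 e2
    have hy0 : y ≠ 0 := by
      intro h0
      rw [h0] at h
      norm_num at h
    left
    obtain ⟨c, hc, hr⟩ := X06_c y hy0
    exact ⟨c, hc, OnePoint.coe_ne_infty y, hr⟩
  · have e1 : p1 = OnePoint.some z := (Prod.mk.inj hz).1
    have e2 : p2 = OnePoint.infty := (Prod.mk.inj hz).2
    subst e1 e2
    right
    have hz : z ≠ 0 := by
      intro h0
      rw [h0] at h
      norm_num at h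
    refine ⟨z, by linear_combination (z ^ 4 - 1) * h, ?_, ?_⟩
    · exact OnePoint.coe_ne_infty z
    · show |(z / z).im| < (z / z).re
      rw [div_self hz]
      simp

end Pool.Agent.DL
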