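import Pool.Agent.helper67.DL.SpecXE
import Pool.Agent.helper67.DL.FINAL

/-! # Project dl (MP_4caea3_gt): the explicit form of XX and the assembly of stage 2 -/

namespace Pool.Agent.DL

open Matrix Complex
open scoped ComplexOrder Manifold ContDiff

theorem XE : XE_stmt := by
  have h19 : X19_stmt := X19 X01
  obtain ⟨ch, hch⟩ := X23_ch (X04 X01 X02) (X05 X01 X02)
  obtain ⟨cs, hg⟩ := X23_good hch X06
  have hol : HolX := FINAL_X09 cs ch hg
  have hcpt : CompactSpace XT := isCompact_iff_compactSpace.1 (IsClosed.isCompact (X03 X01))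
  have hT2 : T2Space XT := inferInstance
  have hconn : ConnectedSpace XT := FINAL_X12 ch hch
  have d0 := X15 X13 X14 cs hol
  have d1 := X16 X13 X14 cs hol
  obtain ⟨n0, n1⟩ := X18 cs ch hg d0 d1
  obtain ⟨tc, tf, tm, th⟩ := h19
  have th' := th cs ch hg hol
  obtain ⟨t0, t1⟩ := X20 (X19 X01) cs hol th'
  obtain ⟨dz, dn⟩ := X21 ch hch
  obtain ⟨k1, k2, k3⟩ := X22 X02 X10 ch hch _ rfl
  refine ⟨cs, ch, hg, ⟨hol.man, hcpt, hT2, hconn⟩, ?_⟩
  exact
    { open0 := hol.oZ
      open1 := hol.oN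
      cover := by
        intro x
        by_cases hx : x ∈ uZ
        · exact Or.inl hx
        · exact Or.inr (X23_relZ hx)
      dense0 := dz
      dense1 := dn
      holo0 := hol.hZ
      holo1 := hol.hN
      mul := fun x hx => X23_mul hx
      dif0 := d0
      dif1 := d1
      ne0 := n0
      ne1 := n1
      rel := X17 cs hol
      tauc := tc
      tau0 := fun x hx => ⟨(tm x).1.2 hx, (tf x).1⟩
      tau1 := fun x hx => ⟨(tm x).2.1.2 hx, (tf x).2.1⟩
      tauh := th'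
      taue0 := t0
      taue1 := t1
      x0mem := OnePoint.coe_ne_infty _
      x0z := rfl
      x0t := by
        apply Subtype.ext
        change (OnePoint.some (-0), OnePoint.some 1) = ((OnePoint.some 0, OnePoint.some 1) : P1 × P1)
        rw [neg_zero]
      x1mem := fun h => OnePoint.coe_ne_infty _ (Eq.symm h)
      x1z := rfl
      e0a := by
        change ch (Sum.inl ⟨1, by norm_num⟩) ∈ cs.atlas
        rw [hg.2]
        exact ⟨_, rfl⟩
      e0t := k1
      e0z := k2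
      e0x := k3 }

theorem XE_main (hEXI : EXI_stmt) : MAIN2_stmt := by
  obtain ⟨cs, ch, hg, hT, hD⟩ := XE
  obtain ⟨a, t, ha, ht, hfin⟩ := ASM_FIN XT (DX ch) hT hD
  have ha0 : 0 < a := by linarith
  have ha2 : 2 < a := by linarith
  have ht0 : 0 < t := by linarith
  obtain ⟨hcov, -, -, -, -, hq2, hq3, -⟩ := EX XT (DX ch) hD a t ha0 ht0
  obtain ⟨hBV, hBS, -⟩ := ASM_BA XT (DX ch) hD a t ha0 ht0
  obtain ⟨hHV, hHS, -⟩ := ASM_HH XT (cov (DX ch) a) (q2F (DX ch) a t) (q3F (DX ch) a t) hcov hq2 hq3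
  obtain ⟨hex1, hex2⟩ := hEXI cs ch hg hT hD a t ha ht
  refine ⟨XT, inferInstance, cs, ASM_BG XT (DX ch) hT hD, cov (DX ch) a, q2F (DX ch) a t, q3F (DX ch) a t,
    BB (DX ch) a t, hcov, hq2, hq3, hHV, hHS, hBV, hBS,
    ASM_BP XT (DX ch) hD a t ha2 ht0, ASM_BF XT (DX ch) hD a t ha0 ht0, ASM_BN XT (DX ch) hD a t ha0 ht0,
    hex1, hex2, (DX ch).x0, ?_⟩
  intro ρ hρ H H' hH hH' i k hi hk
  have hn1 : (DX ch).x0 ∉ (DX ch).U1 := by
    intro h
    have := hD.mul (DX ch).x0 ⟨hD.x0mem, h⟩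
    rw [hD.x0z, zero_mul] at this
    exact zero_ne_one this
  have hk' : k = false := by
    cases k
    · rfl
    · exact absurd hk hn1
  have hi' : i = false := by
    cases i
    · rfl
    · exact absurd hi hn1
  subst hk' hi'
  have h1 := hfin H H' hH hH'
  have hpos : 0 < ρ (chartAt ℂ (DX ch).x0) (DX ch).x0 :=
    hρ.1 _ (chart_mem_atlas ℂ (DX ch).x0) (DX ch).x0 (mem_chart_source ℂ (DX ch).x0)
  have hη : (cov (DX ch) a).η false (chartAt ℂ (DX ch).x0) (DX ch).x0 ≠ 0 := hcov.2.2.2 false (DX ch).x0 hD.x0mem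
  have hη2 : 0 < ‖(cov (DX ch) a).η false (chartAt ℂ (DX ch).x0) (DX ch).x0‖ ^ 2 := by positivity
  unfold energyAt
  apply div_lt_div_of_pos_right _ hpos
  exact mul_lt_mul_of_pos_left h1 (by positivity)

end Pool.Agent.DL
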